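import Mathlib
import Pool.Agent.Helper49.FL.Def

/-!
The Potts model with `k + 2` colours (`0` is the colour 1 and `1` is the colour 2 of the problem) on the square
lattice with a defect line, and its interface under the Dobrushin boundary condition: definitions.
The edges, their second ends, the couplings, the boxes, the edges meeting a box, the dual edges, the time
interval and the Brownian excursion are those of `Helper49/FL/Def.lean`.
-/

open Set MeasureTheory

namespace Pool.Agent.Helper49.QP

open Pool.Agent.Helper49.FL (Edge tip coup Lam edges dual TI)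

/-- Configurations with `k + 2` colours. -/
abbrev Conf (k : ℕ) : Type := ℤ × ℤ → Fin (k + 2)

variable {k : ℕ}

/-- The Boltzmann weight. -/
noncomputable def weight (β J : ℝ) (Λ : Finset (ℤ × ℤ)) (ω : Conf k) : ℝ :=
  Real.exp (β * ∑ e ∈ edges Λ, coup J e * if ω e.1 = ω (tip e) then 1 else 0)

/-- The configuration equal to `σ` in `Λ` and to `η` off `Λ`. -/
def glue (Λ : Finset (ℤ × ℤ)) (η : Conf k) (σ : Λ → Fin (k + 2)) : Conf k :=
  fun x => if h : x ∈ Λ then σ ⟨x, h⟩ else η x

/-- Expectation of `F` for the Gibbs measure in `Λ` with the boundary condition `η`. -/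
noncomputable def expec (β J : ℝ) (Λ : Finset (ℤ × ℤ)) (η : Conf k) (F : Conf k → ℝ) : ℝ :=
  (∑ σ : Λ → Fin (k + 2), weight β J Λ (glue Λ η σ) * F (glue Λ η σ)) /
    ∑ σ : Λ → Fin (k + 2), weight β J Λ (glue Λ η σ)

/-- The spontaneous magnetisation of the homogeneous model with `k + 2` colours: the infimum (which is the
limit) over `n` of `P (ω 0 = 1) - P (ω 0 = 2)` in the box `Lam n` with the boundary condition 1. -/
noncomputable def magn (k : ℕ) (β : ℝ) : ℝ :=
  ⨅ n : ℕ, expec β 1 (Lam n) (fun _ => (0 : Fin (k + 2)))
    (fun ω => if ω (0, 0) = 0 then 1 else if ω (0, 0) = 1 then -1 else 0)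

/-- The Dobrushin boundary condition: colour 1 at the heights `≥ 1`, colour 2 at the heights `≤ 0`. -/
def dob : Conf k := fun x => if 1 ≤ x.2 then 0 else 1

/-- The union of the dual edges of the edges with ends of different colours. Its connected components are
the contours. -/
def walls (ω : Conf k) : Set (ℝ × ℝ) := ⋃ e ∈ {e : Edge | ω e.1 ≠ ω (tip e)}, dual e

/-- The unbounded contour. -/
def Gam (ω : Conf k) : Set (ℝ × ℝ) :=
  {x | x ∈ walls ω ∧ ¬ Bornology.IsBounded (connectedComponentIn (walls ω) x)}

/-- The highest point of the unbounded contour on the vertical line through `(t, 0)`. -/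
noncomputable def Gp (ω : Conf k) (t : ℝ) : ℝ := sSup {y : ℝ | (t, y) ∈ Gam ω}

/-- The rescaled interface: the linear interpolation of the points `(x / n, Gp ω x / √n)`, `-n ≤ x ≤ n`
(a sum of tent functions). -/
noncomputable def path (n : ℕ) (ω : Conf k) : C(TI, ℝ) where
  toFun s := ∑ x ∈ Finset.Icc (-(n : ℤ)) n, Gp ω x / Real.sqrt n * max 0 (1 - |n * (s : ℝ) - x|)
  continuous_toFun := by fun_prop

end Pool.Agent.Helper49.QP
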