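import Mathlib
import Pool.Agent.Helper49.QP.Def
import Pool.Agent.Helper49.FK.Defs

/-!
The dual rectangle and pairs (Potts configuration, dual FK configuration) which are compatible.

The dual vertex `(i, j)` is the point `(i - n - 1/2, j + 1/2)` of the plane.
-/

namespace Pool.Agent.Helper49.QP

/-- The dual rectangle `{0, ..., 2n + 1} × {-n, ..., n}`. -/
noncomputable def Dn (n : ℕ) : Finset (ℤ × ℤ) := Finset.Icc 0 (2 * (n : ℤ) + 1) ×ˢ Finset.Icc (-(n : ℤ)) n

/-- The right end of the defect row; the left end is `(0, 0)`. -/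
def Rn (n : ℕ) : ℤ × ℤ := (2 * (n : ℤ) + 1, 0)

/-- The dual of a primal edge, in the coordinates of the dual rectangle. -/
def dE (n : ℕ) (e : FL.Edge) : Pool.Helper49.FK.Edge :=
  if e.2 = true then ((e.1.1 + n + 1, e.1.2 - 1), false) else ((e.1.1 + n, e.1.2), true)

/-- `ω` satisfies the Dobrushin condition, in `a` the two ends of the defect row are joined, and the duals of the
edges of `ω` with different colours are open in `a`. -/
structure Compat {k : ℕ} (n : ℕ) (ω : Conf k) (a : Finset Pool.Helper49.FK.Edge) : Prop where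
  out : ∀ x, x ∉ FL.Lam n → ω x = dob x
  sub : a ⊆ Pool.Helper49.FK.edges (Dn n)
  conn : Pool.Helper49.FK.Conn a (0, 0) (Rn n)
  dual : ∀ e : FL.Edge, ω e.1 ≠ ω (FL.tip e) → dE n e ∈ Pool.Helper49.FK.edges (Dn n) → dE n e ∈ a

end Pool.Agent.Helper49.QP
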