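import Pool.Agent.Helper49.QP.Fb.Cone

/-!
# The fibres of a pencil over closed points
-/

set_option autoImplicit false

namespace Pool.Agent.Helper49.QP

open Pool.Agent.Helper29.CQ Pool.Agent.Helper65.CC Pool.Agent.Helper87.CC
  Pool.Agent.Helper65.CC.KFn Pool.Agent.Helper9.QP
open Polynomial

variable {k K : Type} [Field k] [Field K] [Algebra k K]
  {G : ∀ (R : Type) [CommRing R] [Algebra K R], Prop}

theorem mem_cls_nil (hG : KOps K G) {F : KFn K} [Rp F] (u : Coord F)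
    (h : ∀ (R : Type) [CommRing R] [Algebra K R] (x : F.obj R), u.val x ^ 2 = 0)
    (hF : F.Mem G) : (F.cls u).Mem G := by
  refine mem_cls hG u hF (Mem.of_trivial hG fun A _ _ x => ?_)
  have h1 : IsUnit (u.val x.1) := x.2
  have h2 := h1.pow 2
  rw [h A x.1] at h2
  exact subsingleton_of_zero_eq_one (isUnit_zero_iff.1 h2)

/-- the coefficients of a quadratic form over the large field -/
abbrev mq (K : Type) [Field K] [Algebra k K] (q : Fin 6 → k) : Fin 6 → K :=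
  fun i => algebraMap k K (q i)

/-- the zero coefficients -/
def z0 (k : Type) [Field k] : ℕ → ℕ → k := fun _ _ => 0

theorem F4_z0 {R : Type} [CommRing R] [Algebra K R] (x y z : R) :
    F4 (mp K (z0 k)) x y z = 0 := by
  simp only [F4, mp, z0, map_zero, zero_mul, add_zero]

theorem F4_mp_sqc (q : Fin 6 → k) {R : Type} [CommRing R] [Algebra K R] (x y z : R) :
    F4 (mp K (sqc q)) x y z = qf (mq K q) x y z ^ 2 := by
  rw [← F4_rs]
  let _ := rs k K R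
  exact F4_sqc q x y z

theorem sqc_ne (q : Fin 6 → k) (hq : q ≠ 0) : ∃ i j, i + j ≤ 4 ∧ sqc q i j ≠ 0 := by
  by_contra hcon
  push Not at hcon
  apply hq
  have h40 : q 0 ^ 2 = 0 := hcon 4 0 (by norm_num)
  have h04 : q 2 ^ 2 = 0 := hcon 0 4 (by norm_num)
  have h00 : q 5 ^ 2 = 0 := hcon 0 0 (by norm_num)
  have h22 : q 1 ^ 2 + 2 * q 0 * q 2 = 0 := hcon 2 2 (by norm_num)
  have h20 : q 3 ^ 2 + 2 * q 0 * q 5 = 0 := hcon 2 0 (by norm_num)
  have h02 : q 4 ^ 2 + 2 * q 2 * q 5 = 0 := hcon 0 2 (by norm_num)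
  have e0 : q 0 = 0 := pow_eq_zero_iff two_ne_zero |>.1 h40
  have e2 : q 2 = 0 := pow_eq_zero_iff two_ne_zero |>.1 h04
  have e5 : q 5 = 0 := pow_eq_zero_iff two_ne_zero |>.1 h00
  rw [e0, mul_zero, zero_mul, add_zero] at h22 h20
  rw [e2, mul_zero, zero_mul, add_zero] at h02
  have e1 : q 1 = 0 := pow_eq_zero_iff two_ne_zero |>.1 h22
  have e3 : q 3 = 0 := pow_eq_zero_iff two_ne_zero |>.1 h20
  have e4 : q 4 = 0 := pow_eq_zero_iff two_ne_zero |>.1 h02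
  funext i
  fin_cases i
  · exact e0
  · exact e1
  · exact e2
  · exact e3
  · exact e4
  · exact e5

/-- the last coordinate -/
def T.u {K : Type} [Field K] (a b c : ℕ → ℕ → K) : Coord (T a b c) :=
  ⟨fun x => x.1.1.1.2.2.2, fun _ _ => rfl⟩

/-- a quadratic form on the cone -/
def T.q {K : Type} [Field K] (a b c : ℕ → ℕ → K) (q : Fin 6 → K) : Coord (T a b c) :=
  ⟨fun x => qf q x.1.1.1.1 x.1.1.1.2.1 x.1.1.1.2.2.1, fun f x => by
    rw [qf_map]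
    rfl⟩

/-- the quartic form on the space -/
def f3 {K : Type} [Field K] (c : ℕ → ℕ → K) : Coord (A3 K) :=
  ⟨fun x => F4 c x.1 x.2.1 x.2.2, fun f x => by
    rw [F4_map]
    rfl⟩

/-- the quadratic form on the space -/
def q3 {K : Type} [Field K] (q : Fin 6 → K) : Coord (A3 K) :=
  ⟨fun x => qf q x.1 x.2.1 x.2.2, fun f x => by
    rw [qf_map]
    rfl⟩

/-- the quadratic form on the space of dimension four -/
def q4 {K : Type} [Field K] (q : Fin 6 → K) : Coord (A4 K) :=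
  ⟨fun x => qf q x.1 x.2.1 x.2.2.1, fun f x => by
    rw [qf_map]
    rfl⟩

theorem mem_F [Finite k] (hG : KOps K G) (hW : Cst k G) (c : ℕ → ℕ → k)
    (hc : ∃ i j, i + j ≤ 4 ∧ c i j ≠ 0) : ((A3 K).cls (f3 (mp K c))).Mem G := by
  refine Mem.of_iso (F' := (T (mp K (z0 k)) (mp K c) (mp K (z0 k))).cls (T.u _ _ _)) ?_
    (mem_cls_nil hG _ ?_ (mem_T hG hW _ _ _ hc))
  · exact
      { hom := fun {R} _ _ x => ⟨⟨⟨⟨(x.1.1, x.1.2.1, x.1.2.2, 0), by
          change (0 : R) ^ 2 - F4 (mp K (z0 k)) x.1.1 x.1.2.1 x.1.2.2 = 0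
          rw [F4_z0]
          ring⟩, x.2⟩, F4_z0 _ _ _⟩, rfl⟩
        inv := fun {R} _ _ y => ⟨(y.1.1.1.1.1, y.1.1.1.1.2.1, y.1.1.1.1.2.2.1), y.1.1.2⟩
        inv_hom := fun {R} _ _ x => rfl
        hom_inv := fun {R} _ _ y => by
          have hu : y.1.1.1.1.2.2.2 = 0 := y.2
          exact Subtype.ext (Subtype.ext (Subtype.ext (Subtype.ext (Prod.ext rfl
            (Prod.ext rfl (Prod.ext rfl hu.symm))))))
        nat := fun {R S} _ _ _ _ f x => by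
          exact Subtype.ext (Subtype.ext (Subtype.ext (Subtype.ext (Prod.ext rfl
            (Prod.ext rfl (Prod.ext rfl (map_zero f))))))) }
  · intro R _ _ x
    have h1 : x.1.1.1.2.2.2 ^ 2 - F4 (mp K (z0 k)) x.1.1.1.1 x.1.1.1.2.1 x.1.1.1.2.2.1 = 0 :=
      x.1.1.2
    rw [F4_z0, sub_zero] at h1
    exact h1

theorem mem_FG [Finite k] (hG : KOps K G) (hW : Cst k G) (c : ℕ → ℕ → k) (q : Fin 6 → k)
    (hc : ∃ i j, i + j ≤ 4 ∧ c i j ≠ 0) :
    (((A3 K).cls (f3 (mp K c))).cls (resC _ (q3 (mq K q)))).Mem G := by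
  refine Mem.of_iso (F' := ((T (mp K (z0 k)) (mp K c) (mp K (sqc q))).cls (T.u _ _ _)).cls
    (resC _ (T.q _ _ _ (mq K q)))) ?_
    (mem_cls_nil hG _ ?_ (mem_cls_nil hG _ ?_ (mem_T hG hW _ _ _ hc)))
  · exact
      { hom := fun {R} _ _ x => ⟨⟨⟨⟨⟨(x.1.1.1, x.1.1.2.1, x.1.1.2.2, 0), by
          change (0 : R) ^ 2 - F4 (mp K (z0 k)) x.1.1.1 x.1.1.2.1 x.1.1.2.2 = 0
          rw [F4_z0]
          ring⟩, x.1.2⟩, by
          have h1 : qf (mq K q) x.1.1.1 x.1.1.2.1 x.1.1.2.2 = 0 := x.2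
          change F4 (mp K (sqc q)) x.1.1.1 x.1.1.2.1 x.1.1.2.2 = 0
          rw [F4_mp_sqc, h1]
          ring⟩, rfl⟩, x.2⟩
        inv := fun {R} _ _ y => ⟨⟨(y.1.1.1.1.1.1, y.1.1.1.1.1.2.1, y.1.1.1.1.1.2.2.1),
          y.1.1.1.2⟩, y.2⟩
        inv_hom := fun {R} _ _ x => rfl
        hom_inv := fun {R} _ _ y => by
          have hu : y.1.1.1.1.1.2.2.2 = 0 := y.1.2
          exact Subtype.ext (Subtype.ext (Subtype.ext (Subtype.ext (Subtype.ext (Prod.ext rfl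
            (Prod.ext rfl (Prod.ext rfl hu.symm)))))))
        nat := fun {R S} _ _ _ _ f x => by
          exact Subtype.ext (Subtype.ext (Subtype.ext (Subtype.ext (Subtype.ext (Prod.ext rfl
            (Prod.ext rfl (Prod.ext rfl (map_zero f)))))))) }
  · intro R _ _ x
    have h1 : F4 (mp K (sqc q)) x.1.1.1.1.1 x.1.1.1.1.2.1 x.1.1.1.1.2.2.1 = 0 := x.1.2
    rw [F4_mp_sqc] at h1
    exact h1
  · intro R _ _ x
    have h1 : x.1.1.1.2.2.2 ^ 2 - F4 (mp K (z0 k)) x.1.1.1.1 x.1.1.1.2.1 x.1.1.1.2.2.1 = 0 :=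
      x.1.1.2
    rw [F4_z0, sub_zero] at h1
    exact h1

theorem mem_Q [Finite k] (hG : KOps K G) (hW : Cst k G) (q : Fin 6 → k) (hq : q ≠ 0) :
    ((A3 K).cls (q3 (mq K q))).Mem G := by
  refine Mem.of_iso (F' := ((T (mp K (z0 k)) (mp K (sqc q)) (mp K (z0 k))).cls (T.u _ _ _)).cls
    (resC _ (T.q _ _ _ (mq K q)))) ?_
    (mem_cls_nil hG _ ?_ (mem_cls_nil hG _ ?_ (mem_T hG hW _ _ _ (sqc_ne q hq))))
  · exact
      { hom := fun {R} _ _ x => ⟨⟨⟨⟨⟨(x.1.1, x.1.2.1, x.1.2.2, 0), by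
          change (0 : R) ^ 2 - F4 (mp K (z0 k)) x.1.1 x.1.2.1 x.1.2.2 = 0
          rw [F4_z0]
          ring⟩, by
          have h1 : qf (mq K q) x.1.1 x.1.2.1 x.1.2.2 = 0 := x.2
          change F4 (mp K (sqc q)) x.1.1 x.1.2.1 x.1.2.2 = 0
          rw [F4_mp_sqc, h1]
          ring⟩, F4_z0 _ _ _⟩, rfl⟩, x.2⟩
        inv := fun {R} _ _ y => ⟨(y.1.1.1.1.1.1, y.1.1.1.1.1.2.1, y.1.1.1.1.1.2.2.1), y.2⟩
        inv_hom := fun {R} _ _ x => rfl
        hom_inv := fun {R} _ _ y => by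
          have hu : y.1.1.1.1.1.2.2.2 = 0 := y.1.2
          exact Subtype.ext (Subtype.ext (Subtype.ext (Subtype.ext (Subtype.ext (Prod.ext rfl
            (Prod.ext rfl (Prod.ext rfl hu.symm)))))))
        nat := fun {R S} _ _ _ _ f x => by
          exact Subtype.ext (Subtype.ext (Subtype.ext (Subtype.ext (Subtype.ext (Prod.ext rfl
            (Prod.ext rfl (Prod.ext rfl (map_zero f)))))))) }
  · intro R _ _ x
    have h1 : F4 (mp K (sqc q)) x.1.1.1.1.1 x.1.1.1.1.2.1 x.1.1.1.1.2.2.1 = 0 := x.1.1.2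
    rw [F4_mp_sqc] at h1
    exact h1
  · intro R _ _ x
    have h1 : x.1.1.1.2.2.2 ^ 2 - F4 (mp K (z0 k)) x.1.1.1.1 x.1.1.1.2.1 x.1.1.1.2.2.1 = 0 :=
      x.1.1.2
    rw [F4_z0, sub_zero] at h1
    exact h1

/-- the double cover `u ^ 2 = F` over `G = 0` -/
theorem mem_DG [Finite k] (hG : KOps K G) (hW : Cst k G) (c : ℕ → ℕ → k) (q : Fin 6 → k)
    (hq : q ≠ 0) : (((A4 K).cls (uf (mp K c))).cls (resC _ (q4 (mq K q)))).Mem G := by
  refine Mem.of_iso (F' := (T (mp K c) (mp K (sqc q)) (mp K (z0 k))).cls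
    (T.q _ _ _ (mq K q))) ?_ (mem_cls_nil hG _ ?_ (mem_T hG hW _ _ _ (sqc_ne q hq)))
  · exact
      { hom := fun {R} _ _ x => ⟨⟨⟨x.1, by
          have h1 : qf (mq K q) x.1.1.1 x.1.1.2.1 x.1.1.2.2.1 = 0 := x.2
          change F4 (mp K (sqc q)) x.1.1.1 x.1.1.2.1 x.1.1.2.2.1 = 0
          rw [F4_mp_sqc, h1]
          ring⟩, F4_z0 _ _ _⟩, x.2⟩
        inv := fun {R} _ _ y => ⟨y.1.1.1, y.2⟩
        inv_hom := fun {R} _ _ x => rfl
        hom_inv := fun {R} _ _ y => rfl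
        nat := fun {R S} _ _ _ _ f x => rfl }
  · intro R _ _ x
    have h1 : F4 (mp K (sqc q)) x.1.1.1.1 x.1.1.1.2.1 x.1.1.1.2.2.1 = 0 := x.1.2
    rw [F4_mp_sqc] at h1
    exact h1

/-- the complement of the curves -/
theorem mem_U [Finite k] (hG : GOps K G) (hW : Cst k G) (c : ℕ → ℕ → k) (q : Fin 6 → k)
    (hc : ∃ i j, i + j ≤ 4 ∧ c i j ≠ 0) (hq : q ≠ 0) :
    (((A3 K).opn (f3 (mp K c))).opn (resO _ (q3 (mq K q)))).Mem G := by
  have hR : Rp (A3 K) := Rp.iso isoA3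
  refine mem_opn hG.toKOps _ (mem_opn hG.toKOps _ (mem_A3 hG) (mem_F hG.toKOps hW c hc)) ?_
  refine mem_opn_cls hG.toKOps _ _ (mem_Q hG.toKOps hW q hq) ?_
  refine Mem.of_iso ?_ (mem_FG hG.toKOps hW c q hc)
  exact
    { hom := fun x => ⟨⟨x.1.1, x.2⟩, x.1.2⟩
      inv := fun x => ⟨⟨x.1.1, x.2⟩, x.1.2⟩
      inv_hom := fun _ => rfl
      hom_inv := fun _ => rfl
      nat := fun _ _ => rfl }

/-- the last coordinate on the fibre -/
def Fib.v {K : Type} [Field K] (c : ℕ → ℕ → K) (q : Fin 6 → K) (e : K) : Coord (Fib c q e) :=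
  ⟨fun x => x.1.1.1.2.2.2, fun _ _ => rfl⟩

theorem v_eq {K : Type} [Field K] (c : ℕ → ℕ → K) (q : Fin 6 → K) {R : Type} [CommRing R]
    [Algebra K R] (x : (Fib c q 0).obj R) : x.1.1.1.2.2.2 * (1 - x.1.1.1.2.2.2) = 0 := by
  have h1 : algebraMap K R 0 * F4 c x.1.1.1.1 x.1.1.1.2.1 x.1.1.1.2.2.1 -
      qf q x.1.1.1.1 x.1.1.1.2.1 x.1.1.1.2.2.1 ^ 2 *
        (x.1.1.1.2.2.2 * (1 - x.1.1.1.2.2.2)) = 0 := x.1.1.2
  have h2 : IsUnit (qf q x.1.1.1.1 x.1.1.1.2.1 x.1.1.1.2.2.1) := x.2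
  rw [map_zero, zero_mul, zero_sub, neg_eq_zero] at h1
  exact (h2.pow 2).mul_right_eq_zero.1 h1

/-- **(D0)** the fibre over zero -/
theorem fib_zero [IsAlgClosed K] (hG : GOps K G) [Finite k] (hW : Cst k G) (c : ℕ → ℕ → k)
    (q : Fin 6 → k) (hc : ∃ i j, i + j ≤ 4 ∧ c i j ≠ 0) (hq : q ≠ 0) :
    (Fib (fun i j => algebraMap k K (c i j)) (fun i => algebraMap k K (q i)) 0).Mem G := by
  have hU := mem_U hG hW c q hc hq
  refine Mem.glue hG.toKOps (Fib.v _ _ _) ?_ ?_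
  · refine Mem.of_iso ?_ hU
    exact
      { hom := fun {R} _ _ x => ⟨⟨(x.1.1.1.1.1, x.1.1.1.1.2.1, x.1.1.1.1.2.2.1), x.1.1.2⟩, x.1.2⟩
        inv := fun {R} _ _ y => ⟨⟨⟨⟨(y.1.1.1, y.1.1.2.1, y.1.1.2.2, 1), by
          change algebraMap K R 0 * F4 (mp K c) y.1.1.1 y.1.1.2.1 y.1.1.2.2 -
            qf (mq K q) y.1.1.1 y.1.1.2.1 y.1.1.2.2 ^ 2 * (1 * (1 - 1)) = 0
          rw [map_zero]
          ring⟩, y.1.2⟩, y.2⟩, isUnit_one⟩
        inv_hom := fun {R} _ _ x => by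
          have h1 := v_eq _ _ x.1
          have h2 : IsUnit x.1.1.1.1.2.2.2 := x.2
          have h3 : (1 : R) = x.1.1.1.1.2.2.2 := sub_eq_zero.1 (h2.mul_right_eq_zero.1 h1)
          exact Subtype.ext (Subtype.ext (Subtype.ext (Subtype.ext (Prod.ext rfl
            (Prod.ext rfl (Prod.ext rfl h3))))))
        hom_inv := fun {R} _ _ y => rfl
        nat := fun {R S} _ _ _ _ f x => rfl }
  · refine Mem.of_iso ?_ hU
    exact
      { hom := fun {R} _ _ x => ⟨⟨(x.1.1.1.1.1, x.1.1.1.1.2.1, x.1.1.1.1.2.2.1), x.1.1.2⟩, x.1.2⟩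
        inv := fun {R} _ _ y => ⟨⟨⟨⟨(y.1.1.1, y.1.1.2.1, y.1.1.2.2, 0), by
          change algebraMap K R 0 * F4 (mp K c) y.1.1.1 y.1.1.2.1 y.1.1.2.2 -
            qf (mq K q) y.1.1.1 y.1.1.2.1 y.1.1.2.2 ^ 2 * (0 * (1 - 0)) = 0
          rw [map_zero]
          ring⟩, y.1.2⟩, y.2⟩, rfl⟩
        inv_hom := fun {R} _ _ x => by
          have h2 : x.1.1.1.1.2.2.2 = 0 := x.2
          exact Subtype.ext (Subtype.ext (Subtype.ext (Subtype.ext (Prod.ext rfl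
            (Prod.ext rfl (Prod.ext rfl h2.symm))))))
        hom_inv := fun {R} _ _ y => rfl
        nat := fun {R S} _ _ _ _ f x => rfl }

/-- the quartic form on the cone -/
def CV.f {K : Type} [Field K] (b c : ℕ → ℕ → K) : Coord (CV b) :=
  ⟨fun x => F4 c x.1.1 x.1.2.1 x.1.2.2.1, fun f x => by
    rw [F4_map]
    rfl⟩

/-- `u - q` on the cone -/
def CV.d {K : Type} [Field K] (b : ℕ → ℕ → K) (q : Fin 6 → K) : Coord (CV b) :=
  ⟨fun x => x.1.2.2.2 - qf q x.1.1 x.1.2.1 x.1.2.2.1, fun f x => by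
    rw [map_sub, qf_map]
    rfl⟩

theorem cv_eq {K : Type} [Field K] (c : ℕ → ℕ → K) (q : Fin 6 → K) (e : K) {R : Type}
    [CommRing R] [Algebra K R] (x : (CV (Qc c q e)).obj R) :
    x.1.2.2.2 ^ 2 = qf q x.1.1 x.1.2.1 x.1.2.2.1 ^ 2 -
      4 * algebraMap K R e * F4 c x.1.1 x.1.2.1 x.1.2.2.1 := by
  have h1 : x.1.2.2.2 ^ 2 - F4 (Qc c q e) x.1.1 x.1.2.1 x.1.2.2.1 = 0 := x.2
  rw [F4_Qc] at h1
  exact sub_eq_zero.1 h1

theorem cv_mk {K : Type} [Field K] (c : ℕ → ℕ → K) (q : Fin 6 → K) (e : K) {R : Type}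
    [CommRing R] [Algebra K R] (x y z u : R)
    (h : u ^ 2 = qf q x y z ^ 2 - 4 * algebraMap K R e * F4 c x y z) :
    u ^ 2 - F4 (Qc c q e) x y z = 0 := by
  rw [F4_Qc, h, sub_self]

/-- the part `F = 0` -/
theorem mem_X1 [Finite k] (h2 : (2 : K) ≠ 0) (hG : KOps K G) (hW : Cst k G) (c : ℕ → ℕ → k)
    (q : Fin 6 → k) (hc : ∃ i j, i + j ≤ 4 ∧ c i j ≠ 0) (e : K) :
    ((CV (Qc (mp K c) (mq K q) e)).cls (CV.f _ (mp K c))).Mem G := by
  have hR : Rp (A3 K) := Rp.iso isoA3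
  have hF := mem_F hG hW c hc
  refine Mem.glue hG (resC _ (CV.d _ (mq K q))) ?_ ?_
  · refine Mem.of_iso (F' := ((A3 K).cls (f3 (mp K c))).opn (resC _ (q3 (mq K q)))) ?_
      (mem_opn hG _ hF (mem_FG hG hW c q hc))
    have key : ∀ (R : Type) [CommRing R] [Algebra K R]
        (x : (((CV (Qc (mp K c) (mq K q) e)).cls (CV.f _ (mp K c))).opn
          (resC _ (CV.d _ (mq K q)))).obj R),
        x.1.1.1.2.2.2 = - qf (mq K q) x.1.1.1.1 x.1.1.1.2.1 x.1.1.1.2.2.1 := by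
      intro R _ _ x
      have h1 := cv_eq _ _ _ x.1.1
      have h3 : F4 (mp K c) x.1.1.1.1 x.1.1.1.2.1 x.1.1.1.2.2.1 = 0 := x.1.2
      have h4 : IsUnit (x.1.1.1.2.2.2 - qf (mq K q) x.1.1.1.1 x.1.1.1.2.1 x.1.1.1.2.2.1) := x.2
      rw [h3, mul_zero, sub_zero] at h1
      have h5 : (x.1.1.1.2.2.2 - qf (mq K q) x.1.1.1.1 x.1.1.1.2.1 x.1.1.1.2.2.1) *
          (x.1.1.1.2.2.2 + qf (mq K q) x.1.1.1.1 x.1.1.1.2.1 x.1.1.1.2.2.1) = 0 := by
        linear_combination h1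
      exact eq_neg_of_add_eq_zero_left (h4.mul_right_eq_zero.1 h5)
    exact
      { hom := fun {R} _ _ x => ⟨⟨(x.1.1.1.1, x.1.1.1.2.1, x.1.1.1.2.2.1), x.1.2⟩, by
          have h4 : IsUnit (x.1.1.1.2.2.2 - qf (mq K q) x.1.1.1.1 x.1.1.1.2.1 x.1.1.1.2.2.1) :=
            x.2
          have h5 := key R x
          have h6 : IsUnit ((-2 : R) * qf (mq K q) x.1.1.1.1 x.1.1.1.2.1 x.1.1.1.2.2.1) := by
            have h7 : (-2 : R) * qf (mq K q) x.1.1.1.1 x.1.1.1.2.1 x.1.1.1.2.2.1 =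
                x.1.1.1.2.2.2 - qf (mq K q) x.1.1.1.1 x.1.1.1.2.1 x.1.1.1.2.2.1 := by
              rw [h5]
              ring
            rw [h7]
            exact h4
          exact isUnit_of_mul_isUnit_right h6⟩
        inv := fun {R} _ _ y => ⟨⟨⟨(y.1.1.1, y.1.1.2.1, y.1.1.2.2,
            - qf (mq K q) y.1.1.1 y.1.1.2.1 y.1.1.2.2), by
          have h3 : F4 (mp K c) y.1.1.1 y.1.1.2.1 y.1.1.2.2 = 0 := y.1.2
          refine cv_mk (mp K c) (mq K q) e _ _ _ _ ?_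
          change (- qf (mq K q) y.1.1.1 y.1.1.2.1 y.1.1.2.2) ^ 2 =
            qf (mq K q) y.1.1.1 y.1.1.2.1 y.1.1.2.2 ^ 2 -
              4 * algebraMap K R e * F4 (mp K c) y.1.1.1 y.1.1.2.1 y.1.1.2.2
          rw [h3]
          ring⟩, y.1.2⟩, by
          have h3 : IsUnit (qf (mq K q) y.1.1.1 y.1.1.2.1 y.1.1.2.2) := y.2
          have h4 : IsUnit (algebraMap K R (-2)) := unit_const (neg_ne_zero.2 h2)
          have h5 := h4.mul h3
          rw [map_neg, map_ofNat] at h5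
          change IsUnit (- qf (mq K q) y.1.1.1 y.1.1.2.1 y.1.1.2.2 -
            qf (mq K q) y.1.1.1 y.1.1.2.1 y.1.1.2.2)
          have h6 : - qf (mq K q) y.1.1.1 y.1.1.2.1 y.1.1.2.2 -
            qf (mq K q) y.1.1.1 y.1.1.2.1 y.1.1.2.2 =
              -2 * qf (mq K q) y.1.1.1 y.1.1.2.1 y.1.1.2.2 := by ring
          rw [h6]
          exact h5⟩
        inv_hom := fun {R} _ _ x => Subtype.ext (Subtype.ext (Subtype.ext (Prod.ext rfl
          (Prod.ext rfl (Prod.ext rfl (key R x).symm)))))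
        hom_inv := fun {R} _ _ y => rfl
        nat := fun {R S} _ _ _ _ f x => rfl }
  · refine Mem.of_iso (F' := (A3 K).cls (f3 (mp K c))) ?_ hF
    exact
      { hom := fun {R} _ _ x => ⟨(x.1.1.1.1, x.1.1.1.2.1, x.1.1.1.2.2.1), x.1.2⟩
        inv := fun {R} _ _ y => ⟨⟨⟨(y.1.1, y.1.2.1, y.1.2.2,
            qf (mq K q) y.1.1 y.1.2.1 y.1.2.2), by
          have h3 : F4 (mp K c) y.1.1 y.1.2.1 y.1.2.2 = 0 := y.2
          refine cv_mk (mp K c) (mq K q) e _ _ _ _ ?_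
          change (qf (mq K q) y.1.1 y.1.2.1 y.1.2.2) ^ 2 =
            qf (mq K q) y.1.1 y.1.2.1 y.1.2.2 ^ 2 -
              4 * algebraMap K R e * F4 (mp K c) y.1.1 y.1.2.1 y.1.2.2
          rw [h3]
          ring⟩, y.2⟩, sub_self _⟩
        inv_hom := fun {R} _ _ x => by
          have h3 : x.1.1.1.2.2.2 - qf (mq K q) x.1.1.1.1 x.1.1.1.2.1 x.1.1.1.2.2.1 = 0 := x.2
          exact Subtype.ext (Subtype.ext (Subtype.ext (Prod.ext rfl
            (Prod.ext rfl (Prod.ext rfl (sub_eq_zero.1 h3).symm)))))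
        hom_inv := fun {R} _ _ y => rfl
        nat := fun {R S} _ _ _ _ f x => Subtype.ext (Prod.ext rfl (Prod.ext rfl rfl)) }

/-- the part `G = 0` -/
theorem mem_X2 [IsAlgClosed K] [Finite k] (hG : KOps K G) (hW : Cst k G)
    (c : ℕ → ℕ → k) (q : Fin 6 → k) (hq : q ≠ 0) (e : K) (h4 : 4 * e ≠ 0) :
    ((CV (Qc (mp K c) (mq K q) e)).cls (Pool.Agent.Helper9.QP.CV.q _ (mq K q))).Mem G := by
  obtain ⟨s, hs⟩ := IsAlgClosed.exists_pow_nat_eq (-4 * e) (n := 2) two_pos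
  have hs0 : s ≠ 0 := by
    rintro rfl
    apply h4
    linear_combination hs
  have e1 : ∀ (R : Type) [CommRing R] [Algebra K R],
      algebraMap K R s * algebraMap K R s⁻¹ = 1 := fun R _ _ => by
    rw [← map_mul, mul_inv_cancel₀ hs0, map_one]
  have e2 : ∀ (R : Type) [CommRing R] [Algebra K R],
      algebraMap K R s ^ 2 = -4 * algebraMap K R e := fun R _ _ => by
    rw [← map_pow, hs, map_mul, map_neg, map_ofNat]
  refine Mem.of_iso ?_ (mem_DG hG hW c q hq)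
  exact
    { hom := fun {R} _ _ x => ⟨⟨(x.1.1.1, x.1.1.2.1, x.1.1.2.2.1,
        algebraMap K R s⁻¹ * x.1.1.2.2.2), by
          have h1 := cv_eq _ _ _ x.1
          have h3 : qf (mq K q) x.1.1.1 x.1.1.2.1 x.1.1.2.2.1 = 0 := x.2
          rw [h3] at h1
          have h5 := e1 R
          have h6 := e2 R
          change (algebraMap K R s⁻¹ * x.1.1.2.2.2) ^ 2 -
            F4 (mp K c) x.1.1.1 x.1.1.2.1 x.1.1.2.2.1 = 0
          linear_combination (algebraMap K R s⁻¹) ^ 2 * h1 +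
            F4 (mp K c) x.1.1.1 x.1.1.2.1 x.1.1.2.2.1 *
              (algebraMap K R s * algebraMap K R s⁻¹ + 1) * h5 -
            (algebraMap K R s⁻¹) ^ 2 * F4 (mp K c) x.1.1.1 x.1.1.2.1 x.1.1.2.2.1 * h6⟩, x.2⟩
      inv := fun {R} _ _ y => ⟨⟨(y.1.1.1, y.1.1.2.1, y.1.1.2.2.1,
        algebraMap K R s * y.1.1.2.2.2), by
          have h1 : y.1.1.2.2.2 ^ 2 - F4 (mp K c) y.1.1.1 y.1.1.2.1 y.1.1.2.2.1 = 0 := y.1.2
          have h3 : qf (mq K q) y.1.1.1 y.1.1.2.1 y.1.1.2.2.1 = 0 := y.2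
          refine cv_mk (mp K c) (mq K q) e _ _ _ _ ?_
          rw [h3]
          linear_combination (algebraMap K R s) ^ 2 * h1 +
            F4 (mp K c) y.1.1.1 y.1.1.2.1 y.1.1.2.2.1 * e2 R⟩, y.2⟩
      inv_hom := fun {R} _ _ x => Subtype.ext (Subtype.ext (Prod.ext rfl (Prod.ext rfl
        (Prod.ext rfl (by
          change algebraMap K R s * (algebraMap K R s⁻¹ * x.1.1.2.2.2) = x.1.1.2.2.2
          rw [← mul_assoc, e1, one_mul])))))
      hom_inv := fun {R} _ _ y => Subtype.ext (Subtype.ext (Prod.ext rfl (Prod.ext rfl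
        (Prod.ext rfl (by
          change algebraMap K R s⁻¹ * (algebraMap K R s * y.1.1.2.2.2) = y.1.1.2.2.2
          rw [← mul_assoc, mul_comm (algebraMap K R s⁻¹), e1, one_mul])))))
      nat := fun {R S} _ _ _ _ f x => Subtype.ext (Subtype.ext (Prod.ext rfl (Prod.ext rfl
        (Prod.ext rfl (by
          change f (algebraMap K R s⁻¹ * x.1.1.2.2.2) = algebraMap K S s⁻¹ * f x.1.1.2.2.2
          rw [map_mul, AlgHom.commutes]))))) }

/-- **(D1a)** the double cover of the conic `G = 0` -/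
theorem cone_conic [IsAlgClosed K] (hG : GOps K G) [Finite k] (hW : Cst k G) (c : ℕ → ℕ → k)
    (q : Fin 6 → k) (hq : q ≠ 0) (e : K) (h4 : 4 * e ≠ 0) :
    ((CV (Qc (fun i j => algebraMap k K (c i j)) (fun i => algebraMap k K (q i)) e)).cls
      (Pool.Agent.Helper9.QP.CV.q _ (fun i => algebraMap k K (q i)))).Mem G :=
  mem_X2 hG.toKOps hW c q hq e h4

/-- the part `G = F = 0` -/
theorem mem_X3 [Finite k] (hG : KOps K G) (hW : Cst k G) (c : ℕ → ℕ → k) (q : Fin 6 → k)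
    (hc : ∃ i j, i + j ≤ 4 ∧ c i j ≠ 0) (e : K) :
    (((CV (Qc (mp K c) (mq K q) e)).cls (Pool.Agent.Helper9.QP.CV.q _ (mq K q))).cls
      (resC _ (CV.f _ (mp K c)))).Mem G := by
  have key : ∀ (R : Type) [CommRing R] [Algebra K R]
      (x : (((CV (Qc (mp K c) (mq K q) e)).cls (Pool.Agent.Helper9.QP.CV.q _ (mq K q))).cls
        (resC _ (CV.f _ (mp K c)))).obj R), x.1.1.1.2.2.2 ^ 2 = 0 := by
    intro R _ _ x
    have h1 := cv_eq _ _ _ x.1.1
    have h3 : F4 (mp K c) x.1.1.1.1 x.1.1.1.2.1 x.1.1.1.2.2.1 = 0 := x.2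
    have h4 : qf (mq K q) x.1.1.1.1 x.1.1.1.2.1 x.1.1.1.2.2.1 = 0 := x.1.2
    rw [h3, h4] at h1
    rw [h1]
    ring
  let u : Coord (((CV (Qc (mp K c) (mq K q) e)).cls (Pool.Agent.Helper9.QP.CV.q _ (mq K q))).cls
      (resC _ (CV.f _ (mp K c)))) := ⟨fun x => x.1.1.1.2.2.2, fun _ _ => rfl⟩
  refine Mem.glue hG u (Mem.of_trivial hG fun A _ _ x => ?_) ?_
  · have h1 : IsUnit (x.1.1.1.1.2.2.2) := x.2
    have h2 := h1.pow 2
    rw [key A x.1] at h2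
    exact subsingleton_of_zero_eq_one (isUnit_zero_iff.1 h2)
  · refine Mem.of_iso ?_ (mem_FG hG hW c q hc)
    exact
      { hom := fun {R} _ _ x => ⟨⟨(x.1.1.1.1.1, x.1.1.1.1.2.1, x.1.1.1.1.2.2.1), x.1.2⟩,
          x.1.1.2⟩
        inv := fun {R} _ _ y => ⟨⟨⟨⟨(y.1.1.1, y.1.1.2.1, y.1.1.2.2, 0), by
          have h3 : F4 (mp K c) y.1.1.1 y.1.1.2.1 y.1.1.2.2 = 0 := y.1.2
          have h4 : qf (mq K q) y.1.1.1 y.1.1.2.1 y.1.1.2.2 = 0 := y.2
          refine cv_mk (mp K c) (mq K q) e _ _ _ _ ?_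
          change (0 : R) ^ 2 = qf (mq K q) y.1.1.1 y.1.1.2.1 y.1.1.2.2 ^ 2 -
              4 * algebraMap K R e * F4 (mp K c) y.1.1.1 y.1.1.2.1 y.1.1.2.2
          rw [h3, h4]
          ring⟩, y.2⟩, y.1.2⟩, rfl⟩
        inv_hom := fun {R} _ _ x => by
          have h3 : x.1.1.1.1.2.2.2 = 0 := x.2
          exact Subtype.ext (Subtype.ext (Subtype.ext (Subtype.ext (Prod.ext rfl
            (Prod.ext rfl (Prod.ext rfl h3.symm))))))
        hom_inv := fun {R} _ _ y => rfl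
        nat := fun {R S} _ _ _ _ f x => rfl }

/-- **(D1)** the fibre over a point `e ≠ 0` -/
theorem fib_ne [IsAlgClosed K] (h2 : (2 : K) ≠ 0) (hG : GOps K G) [Finite k] (hW : Cst k G)
    (c : ℕ → ℕ → k) (q : Fin 6 → k) (hc : ∃ i j, i + j ≤ 4 ∧ c i j ≠ 0) (hq : q ≠ 0) (e : K)
    (he : e ≠ 0)
    (hQ : (CV (Qc (fun i j => algebraMap k K (c i j)) (fun i => algebraMap k K (q i)) e)).Mem G) :
    (Fib (fun i j => algebraMap k K (c i j)) (fun i => algebraMap k K (q i)) e).Mem G := by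
  have hU : (((CV (Qc (mp K c) (mq K q) e)).opn (CV.f _ (mp K c))).opn
      (resO _ (Pool.Agent.Helper9.QP.CV.q _ (mq K q)))).Mem G := by
    refine mem_opn hG.toKOps _ (mem_opn hG.toKOps _ hQ (mem_X1 h2 hG.toKOps hW c q hc e)) ?_
    have h4 : 4 * e ≠ 0 := by
      have : (4 : K) = 2 * 2 := by norm_num
      rw [this]
      exact mul_ne_zero (mul_ne_zero h2 h2) he
    exact mem_opn_cls hG.toKOps _ _ (mem_X2 hG.toKOps hW c q hq e h4)
      (mem_X3 hG.toKOps hW c q hc e)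
  refine Mem.of_iso ?_ hU
  have hh : ∀ (R : Type) [CommRing R] [Algebra K R],
      algebraMap K R 2⁻¹ * 2 = 1 := fun R _ _ => by
    rw [← map_ofNat (algebraMap K R) 2, ← map_mul, inv_mul_cancel₀ h2, map_one]
  exact
    { hom := fun {R} _ _ x => ⟨⟨⟨(x.1.1.1.1, x.1.1.1.2.1, x.1.1.1.2.2.1,
        qf (mq K q) x.1.1.1.1 x.1.1.1.2.1 x.1.1.1.2.2.1 * (2 * x.1.1.1.2.2.2 - 1)), by
          have h1 : algebraMap K R e * F4 (mp K c) x.1.1.1.1 x.1.1.1.2.1 x.1.1.1.2.2.1 -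
            qf (mq K q) x.1.1.1.1 x.1.1.1.2.1 x.1.1.1.2.2.1 ^ 2 *
              (x.1.1.1.2.2.2 * (1 - x.1.1.1.2.2.2)) = 0 := x.1.1.2
          refine cv_mk (mp K c) (mq K q) e _ _ _ _ ?_
          change (qf (mq K q) x.1.1.1.1 x.1.1.1.2.1 x.1.1.1.2.2.1 *
            (2 * x.1.1.1.2.2.2 - 1)) ^ 2 =
            qf (mq K q) x.1.1.1.1 x.1.1.1.2.1 x.1.1.1.2.2.1 ^ 2 -
              4 * algebraMap K R e * F4 (mp K c) x.1.1.1.1 x.1.1.1.2.1 x.1.1.1.2.2.1
          linear_combination 4 * h1⟩, x.1.2⟩, x.2⟩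
      inv := fun {R} _ _ y => ⟨⟨⟨(y.1.1.1.1, y.1.1.1.2.1, y.1.1.1.2.2.1,
        algebraMap K R 2⁻¹ * (1 + y.1.1.1.2.2.2 *
          Ring.inverse (qf (mq K q) y.1.1.1.1 y.1.1.1.2.1 y.1.1.1.2.2.1))), by
          have h1 := cv_eq _ _ _ y.1.1
          have h3 : IsUnit (qf (mq K q) y.1.1.1.1 y.1.1.1.2.1 y.1.1.1.2.2.1) := y.2
          have h4 := mul_inv' h3
          have h5 := hh R
          set g := qf (mq K q) y.1.1.1.1 y.1.1.1.2.1 y.1.1.1.2.2.1 with hg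
          set w := Ring.inverse g with hw
          set F := F4 (mp K c) y.1.1.1.1 y.1.1.1.2.1 y.1.1.1.2.2.1 with hF
          set t := algebraMap K R 2⁻¹ with ht
          set u := y.1.1.1.2.2.2 with hu
          set ε := algebraMap K R e with hε
          change ε * F - g ^ 2 * (t * (1 + u * w) * (1 - t * (1 + u * w))) = 0
          have h6 : g * (t * (1 + u * w)) = t * (g + u) := by
            linear_combination t * u * h4
          have h7 : g ^ 2 * (t * (1 + u * w) * (1 - t * (1 + u * w))) =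
              (g * (t * (1 + u * w))) * (g - g * (t * (1 + u * w))) := by ring
          rw [h7, h6]
          have h8 : t * (g + u) * (g - t * (g + u)) = t ^ 2 * (g ^ 2 - u ^ 2) := by
            linear_combination (-t * (g + u) * g) * h5
          rw [h8, h1]
          linear_combination (-(t * 2 + 1) * ε * F) * h5⟩, y.1.2⟩, y.2⟩
      inv_hom := fun {R} _ _ x => by
        have h3 : IsUnit (qf (mq K q) x.1.1.1.1 x.1.1.1.2.1 x.1.1.1.2.2.1) := x.2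
        have h4 := mul_inv' h3
        have h5 := hh R
        refine Subtype.ext (Subtype.ext (Subtype.ext (Prod.ext rfl (Prod.ext rfl
          (Prod.ext rfl ?_)))))
        change algebraMap K R 2⁻¹ * (1 + qf (mq K q) x.1.1.1.1 x.1.1.1.2.1 x.1.1.1.2.2.1 *
          (2 * x.1.1.1.2.2.2 - 1) *
            Ring.inverse (qf (mq K q) x.1.1.1.1 x.1.1.1.2.1 x.1.1.1.2.2.1)) = x.1.1.1.2.2.2
        linear_combination (algebraMap K R 2⁻¹ * (2 * x.1.1.1.2.2.2 - 1)) * h4 +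
          x.1.1.1.2.2.2 * h5
      hom_inv := fun {R} _ _ y => by
        have h3 : IsUnit (qf (mq K q) y.1.1.1.1 y.1.1.1.2.1 y.1.1.1.2.2.1) := y.2
        have h4 := mul_inv' h3
        have h5 := hh R
        refine Subtype.ext (Subtype.ext (Subtype.ext (Prod.ext rfl (Prod.ext rfl
          (Prod.ext rfl ?_)))))
        change qf (mq K q) y.1.1.1.1 y.1.1.1.2.1 y.1.1.1.2.2.1 * (2 * (algebraMap K R 2⁻¹ *
          (1 + y.1.1.1.2.2.2 *
          Ring.inverse (qf (mq K q) y.1.1.1.1 y.1.1.1.2.1 y.1.1.1.2.2.1))) - 1) = y.1.1.1.2.2.2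
        linear_combination (qf (mq K q) y.1.1.1.1 y.1.1.1.2.1 y.1.1.1.2.2.1 *
          (1 + y.1.1.1.2.2.2 *
          Ring.inverse (qf (mq K q) y.1.1.1.1 y.1.1.1.2.1 y.1.1.1.2.2.1))) * h5 +
          y.1.1.1.2.2.2 * h4
      nat := fun {R S} _ _ _ _ f x => Subtype.ext (Subtype.ext (Subtype.ext (Prod.ext rfl
        (Prod.ext rfl (Prod.ext rfl (by
          change f (qf (mq K q) x.1.1.1.1 x.1.1.1.2.1 x.1.1.1.2.2.1 *
            (2 * x.1.1.1.2.2.2 - 1)) = qf (mq K q) (f x.1.1.1.1) (f x.1.1.1.2.1)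
              (f x.1.1.1.2.2.1) * (2 * f x.1.1.1.2.2.2 - 1)
          rw [map_mul, qf_map, map_sub, map_mul, map_ofNat, map_one])))))) }

end Pool.Agent.Helper49.QP
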