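import Mathlib
import Pool.Agent.Helper49.QP.Dual
import Pool.Agent.Helper17.OZG.Geo

/-!
Block AS-G (helper17): the geometry of the interface, `k + 2` colours.

As in `FL/Geo`, `FL/Comp`, `FL/Inf`, `FL/Hgt` (two colours). `Gp ω x` is attained at a dual edge of a vertical primal edge
`((x, K), false)` with ends of different colours, which is joined by touching duals of such edges to the dual of
`((-n - 1, 0), false)`; the duals involved inside the dual rectangle are open in `a`. For `q > 2` compare with the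
two-colour configuration `ω x = 0`. The proofs are in `Helper17/OZG/Cont.lean` and `Helper17/OZG/Geo.lean`.
-/

namespace Pool.Agent.Helper49.QP

open Pool.Helper49.FK (Conn)

variable {k : ℕ}

/-- The duals of the broken edges meeting the box are open. -/
theorem cov_of_compat {n : ℕ} {ω : Conf k} {a : Finset Pool.Helper49.FK.Edge} (h : Compat n ω a) :
    Pool.Helper17.OZG.Cov n ω a := by
  have key : ∀ (b : ℤ × ℤ) (c : Bool), b ∈ Dn n → Pool.Helper49.FK.tip (b, c) ∈ Dn n →
      (b, c) ∈ Pool.Helper49.FK.edges (Dn n) := by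
    intro b c h1 h2
    unfold Pool.Helper49.FK.edges
    rw [Finset.mem_filter, Finset.mem_product]
    exact ⟨⟨h1, Finset.mem_univ _⟩, h2⟩
  refine ⟨?_, ?_⟩
  · intro x y hx hy hb
    rw [abs_le] at hx hy
    have h1 := h.dual ((x, y), false) hb
    have h2 : dE n ((x, y), false) = ((x + n, y), true) := rfl
    rw [h2] at h1
    refine h1 (key _ _ ?_ ?_)
    · unfold Dn
      rw [Finset.mem_product, Finset.mem_Icc, Finset.mem_Icc]
      simp only
      omega
    · unfold Dn Pool.Helper49.FK.tip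
      rw [Finset.mem_product, Finset.mem_Icc, Finset.mem_Icc]
      simp only [if_true]
      omega
  · intro x y hx1 hx2 hy1 hy2 hb
    have h1 := h.dual ((x, y), true) hb
    have h2 : dE n ((x, y), true) = ((x + n + 1, y - 1), false) := rfl
    rw [h2] at h1
    refine h1 (key _ _ ?_ ?_)
    · unfold Dn
      rw [Finset.mem_product, Finset.mem_Icc, Finset.mem_Icc]
      simp only
      omega
    · unfold Dn Pool.Helper49.FK.tip
      rw [Finset.mem_product, Finset.mem_Icc, Finset.mem_Icc]
      simp only [Bool.false_eq_true, if_false]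
      omega

theorem gp_geo {n : ℕ} (hn : 1 ≤ n) {ω : Conf k} {a : Finset Pool.Helper49.FK.Edge} (h : Compat n ω a)
    {x : ℤ} (hx : |x| ≤ n) :
    ∃ K : ℤ, |K| ≤ n ∧ Gp ω x = K + 1 / 2 ∧ Conn a (0, 0) (x + n, K) := by
  obtain ⟨K, h1, h2, _, h3⟩ := Pool.Helper17.OZG.G1 hn h.out hx
  exact ⟨K, h1, h2, (h3 a (cov_of_compat h)).2.1⟩

theorem gp_near {n : ℕ} (hn : 1 ≤ n) {ω : Conf k} (hω : ∀ x, x ∉ FL.Lam n → ω x = dob x) {t : ℝ}
    (ht : |t| ≤ n) : ∃ x : ℤ, |x| ≤ n ∧ |t - x| ≤ 1 / 2 ∧ Gp ω t = Gp ω x :=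
  Pool.Helper17.OZG.G2 hn hω ht

end Pool.Agent.Helper49.QP
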