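import Mathlib
import Pool.Agent.Helper49.QP.Def
import Pool.Agent.Helper49.FK.Exp
import Pool.Agent.Helper17.OZG.Magn

/-!
Final statement of project XD (helper71): positive magnetisation at a smaller inverse temperature implies
exponential decay of the dual random-cluster model (wired boundary condition). The link between the
magnetisation and the wired random-cluster model (Edwards-Sokal) is in `Helper17/OZG/ES.lean`, `Magn.lean`.
-/

namespace Pool.Agent.Helper49.QP

theorem exp_of_magn (k : ℕ) {β₁ β : ℝ} (h0 : 0 ≤ β₁) (h : β₁ < β) (hm : 0 < magn k β₁) :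
    Pool.Helper49.FK.ExpW (k + 2) ((k + 2) / (Real.exp β - 1)) :=
  Pool.Helper17.OZG.exp_of_magn' k h0 h hm

end Pool.Agent.Helper49.QP
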