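import Mathlib
import Pool.Agent.Helper49.QP.Def

/-!
Block AS-1: the law of the rescaled interface as a measure on `C([-1, 1])`, elementary properties of `expec`.
(As `PL/Law.lean` for two colours.)
-/

open MeasureTheory

namespace Pool.Agent.Helper49.QP

open Pool.Agent.Helper49.FL (TI)

variable {k : ℕ}

private theorem weight_pos38 (β J : ℝ) (Λ : Finset (ℤ × ℤ)) (ω : Conf k) : 0 < weight β J Λ ω :=
  Real.exp_pos _

private theorem zsum_pos38 (β J : ℝ) (Λ : Finset (ℤ × ℤ)) (η : Conf k) :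
    0 < ∑ σ : Λ → Fin (k + 2), weight β J Λ (glue Λ η σ) :=
  Finset.sum_pos (fun _ _ => weight_pos38 β J Λ _) Finset.univ_nonempty

private theorem glue_off38 (Λ : Finset (ℤ × ℤ)) (η : Conf k) (σ : Λ → Fin (k + 2)) {x : ℤ × ℤ}
    (hx : x ∉ Λ) : glue Λ η σ x = η x := by
  simp [glue, hx]

private theorem expec38 (β J : ℝ) (Λ : Finset (ℤ × ℤ)) (η : Conf k) (F : Conf k → ℝ) :
    expec β J Λ η F = ∑ σ : Λ → Fin (k + 2), weight β J Λ (glue Λ η σ) /
      (∑ τ : Λ → Fin (k + 2), weight β J Λ (glue Λ η τ)) * F (glue Λ η σ) := by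
  rw [expec, Finset.sum_div]
  refine Finset.sum_congr rfl fun σ _ => ?_
  ring

private theorem wq_nonneg38 (β J : ℝ) (n : ℕ) (σ : FL.Lam n → Fin (k + 2)) :
    0 ≤ weight β J (FL.Lam n) (glue (FL.Lam n) dob σ) /
      ∑ τ : FL.Lam n → Fin (k + 2), weight β J (FL.Lam n) (glue (FL.Lam n) dob τ) :=
  div_nonneg (weight_pos38 β J _ _).le (zsum_pos38 β J _ _).le

theorem expec_mono {β J : ℝ} {Λ : Finset (ℤ × ℤ)} {η : Conf k} {F G : Conf k → ℝ}
    (h : ∀ ω, (∀ x, x ∉ Λ → ω x = η x) → F ω ≤ G ω) : expec β J Λ η F ≤ expec β J Λ η G := by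
  rw [expec, expec]
  apply div_le_div_of_nonneg_right _ (zsum_pos38 β J Λ η).le
  apply Finset.sum_le_sum
  intro σ _
  exact mul_le_mul_of_nonneg_left (h _ (fun x hx => glue_off38 Λ η σ hx)) (weight_pos38 β J Λ _).le

theorem expec_congr {β J : ℝ} {Λ : Finset (ℤ × ℤ)} {η : Conf k} {F G : Conf k → ℝ}
    (h : ∀ ω, (∀ x, x ∉ Λ → ω x = η x) → F ω = G ω) : expec β J Λ η F = expec β J Λ η G := by
  exact le_antisymm (expec_mono fun ω hω => (h ω hω).le) (expec_mono fun ω hω => (h ω hω).ge)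

theorem expec_const {β J : ℝ} {Λ : Finset (ℤ × ℤ)} {η : Conf k} (c : ℝ) :
    expec β J Λ η (fun _ => c) = c := by
  rw [expec, ← Finset.sum_mul]
  rw [mul_comm, mul_div_assoc, div_self (zsum_pos38 β J Λ η).ne', mul_one]

theorem expec_sub {β J : ℝ} {Λ : Finset (ℤ × ℤ)} {η : Conf k} (F G : Conf k → ℝ) :
    expec β J Λ η (fun ω => F ω - G ω) = expec β J Λ η F - expec β J Λ η G := by
  rw [expec, expec, expec, ← sub_div, ← Finset.sum_sub_distrib]
  congr 1
  refine Finset.sum_congr rfl fun σ _ => ?_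
  ring

/-- The law of the rescaled interface. -/
noncomputable def lawP (k : ℕ) (β J : ℝ) (n : ℕ) : Measure C(TI, ℝ) :=
  ∑ σ : FL.Lam n → Fin (k + 2), ENNReal.ofReal (weight β J (FL.Lam n) (glue (FL.Lam n) dob σ) /
    ∑ τ : FL.Lam n → Fin (k + 2), weight β J (FL.Lam n) (glue (FL.Lam n) dob τ)) •
      Measure.dirac (path n (glue (FL.Lam n) dob σ))

instance lawP_prob (k : ℕ) (β J : ℝ) (n : ℕ) : IsProbabilityMeasure (lawP k β J n) := by
  refine ⟨?_⟩
  unfold lawP
  rw [Measure.finsetSum_apply]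
  simp only [Measure.smul_apply, measure_univ, smul_eq_mul, mul_one]
  rw [← ENNReal.ofReal_sum_of_nonneg (fun σ _ => wq_nonneg38 β J n σ), ← Finset.sum_div,
    div_self (zsum_pos38 β J (FL.Lam n) dob).ne', ENNReal.ofReal_one]

theorem lawP_int (β J : ℝ) (n : ℕ) {F : C(TI, ℝ) → ℝ} (hF : Continuous F) :
    ∫ f, F f ∂(lawP k β J n) = expec β J (FL.Lam n) (dob : Conf k) (fun ω => F (path n ω)) := by
  unfold lawP
  rw [integral_finsetSum_measure]
  · rw [expec38]
    refine Finset.sum_congr rfl fun σ _ => ?_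
    rw [integral_smul_measure, integral_dirac, ENNReal.toReal_ofReal (wq_nonneg38 β J n σ),
      smul_eq_mul]
  · intro σ _
    refine Integrable.smul_measure ?_ ENNReal.ofReal_ne_top
    exact integrable_dirac (by simp)

open Classical in
theorem lawP_real (β J : ℝ) (n : ℕ) {E : Set C(TI, ℝ)} (hE : MeasurableSet E) :
    (lawP k β J n).real E =
      expec β J (FL.Lam n) (dob : Conf k) (fun ω => if path n ω ∈ E then 1 else 0) := by
  rw [measureReal_def]
  unfold lawP
  rw [Measure.finsetSum_apply]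
  simp only [Measure.smul_apply, smul_eq_mul]
  rw [ENNReal.toReal_sum]
  · rw [expec38]
    refine Finset.sum_congr rfl fun σ _ => ?_
    rw [ENNReal.toReal_mul, ENNReal.toReal_ofReal (wq_nonneg38 β J n σ),
      Measure.dirac_apply' _ hE]
    by_cases h : path n (glue (FL.Lam n) dob σ) ∈ E
    · rw [Set.indicator_of_mem h, if_pos h]
      simp
    · rw [Set.indicator_of_notMem h, if_neg h]
      simp
  · intro σ _
    exact ENNReal.mul_ne_top ENNReal.ofReal_ne_top (measure_ne_top _ _)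

end Pool.Agent.Helper49.QP
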