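import Mathlib
import Pool.Agent.Helper49.QP.Dual
import Pool.Agent.Helper13.OZ.Pd3

/-!
Block AS-T (helper13): Edwards-Sokal coupling and planar duality, as a transfer inequality.
-/

namespace Pool.Agent.Helper49.QP

open Pool.Helper49.FK (Conn ex pr dfc)
open Pool.Agent.Helper13.OZ (sq ind ind_pos ind_neg GP EP dua col mem_col vt vb)
open scoped Classical

/-- The Edwards-Sokal weight of an edge. -/
noncomputable def ve (β J : ℝ) (e : FL.Edge) : ℝ := Real.exp (β * FL.coup J e) - 1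

theorem ve_pos {β J : ℝ} (hβ : 0 < β) (hJ : 0 < J) (e : FL.Edge) : 0 < ve β J e := by
  unfold ve FL.coup
  split_ifs
  · have := Real.add_one_lt_exp (mul_pos hβ hJ).ne'
    have := mul_pos hβ hJ
    linarith
  · have := Real.add_one_lt_exp (mul_pos hβ one_pos).ne'
    linarith [mul_pos hβ one_pos]

/-- Expansion of the Boltzmann weight. -/
theorem weight_eq {k : ℕ} (β J : ℝ) (n : ℕ) (σ : FL.Lam n → Fin (k + 2)) :
    weight β J (FL.Lam n) (glue (FL.Lam n) dob σ) =
      ∑ b ∈ (FL.edges (FL.Lam n)).powerset, (∏ e ∈ b, ve β J e) * ind (σ ∈ col k n b) := by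
  unfold weight
  rw [Finset.mul_sum, Real.exp_sum]
  have h1 : ∀ e ∈ FL.edges (FL.Lam n), Real.exp (β * (FL.coup J e *
      if glue (FL.Lam n) dob σ e.1 = glue (FL.Lam n) dob σ (FL.tip e) then 1 else 0)) =
      1 + ve β J e * ind (glue (FL.Lam n) dob σ e.1 = glue (FL.Lam n) dob σ (FL.tip e)) := by
    intro e _
    by_cases h : glue (FL.Lam n) dob σ e.1 = glue (FL.Lam n) dob σ (FL.tip e)
    · rw [if_pos h, ind_pos h, mul_one, mul_one, ve]; ring
    · rw [if_neg h, ind_neg h, mul_zero, mul_zero, mul_zero, Real.exp_zero, add_zero]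
  rw [Finset.prod_congr rfl h1, Finset.prod_one_add]
  refine Finset.sum_congr rfl fun b _ => ?_
  rw [Finset.prod_mul_distrib]
  congr 1
  by_cases h : σ ∈ col k n b
  · rw [ind_pos h]
    refine Finset.prod_eq_one fun e he => ind_pos ?_
    rw [Pool.Agent.Helper13.OZ.glue_eq, Pool.Agent.Helper13.OZ.glue_eq]
    exact mem_col.1 h e he
  · rw [ind_neg h]
    rw [mem_col] at h
    push Not at h
    obtain ⟨e, he, hne⟩ := h
    refine Finset.prod_eq_zero he (ind_neg ?_)
    rw [Pool.Agent.Helper13.OZ.glue_eq, Pool.Agent.Helper13.OZ.glue_eq]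
    exact hne

/-- The unnormalised Potts sums. -/
theorem sum_eq {k : ℕ} (β J : ℝ) (n : ℕ) (g : Conf k → ℝ) :
    ∑ σ : FL.Lam n → Fin (k + 2), weight β J (FL.Lam n) (glue (FL.Lam n) dob σ) * g (glue (FL.Lam n) dob σ) =
      ∑ b ∈ (FL.edges (FL.Lam n)).powerset, (∏ e ∈ b, ve β J e) *
        ∑ σ ∈ col k n b, g (glue (FL.Lam n) dob σ) := by
  simp only [weight_eq, Finset.sum_mul]
  rw [Finset.sum_comm]
  refine Finset.sum_congr rfl fun b _ => ?_
  rw [Finset.mul_sum, ← Finset.sum_filter_add_sum_filter_not Finset.univ (fun σ => σ ∈ col k n b)]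
  rw [Finset.sum_eq_zero (s := Finset.univ.filter fun σ => ¬ σ ∈ col k n b), add_zero]
  · have h1 : (Finset.univ.filter fun σ => σ ∈ col k n b) = col k n b := by
      ext σ; simp
    rw [h1]
    refine Finset.sum_congr rfl fun σ hσ => ?_
    rw [ind_pos hσ, mul_one]
  · intro σ hσ
    rw [Finset.mem_filter] at hσ
    rw [ind_neg hσ.2, mul_zero, zero_mul]

/-- The odds of the dual model. -/
theorem dfc_dE (k : ℕ) (β J : ℝ) (n : ℕ) (e : FL.Edge) :
    dfc ((k + 2) / (Real.exp β - 1)) ((k + 2) / (Real.exp (β * J) - 1)) (dE n e) = (k + 2) / ve β J e := by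
  obtain ⟨⟨x, y⟩, c⟩ := e
  unfold dfc ve FL.coup
  cases c
  · rw [Pool.Agent.Helper13.OZ.dE_false]
    by_cases hy : y = 0
    · subst hy
      simp
    · simp [hy]
  · rw [Pool.Agent.Helper13.OZ.dE_true]
    simp

/-- Sums over the dual configurations. -/
theorem sum_dua {n : ℕ} (hn : 1 ≤ n) (F : Finset Pool.Helper49.FK.Edge → ℝ) :
    ∑ a ∈ (Pool.Helper49.FK.edges (Dn n)).powerset, F a =
      ∑ b ∈ (FL.edges (FL.Lam n)).powerset, F (dua n b) := by
  symm
  refine Finset.sum_bij' (fun b _ => dua n b)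
    (fun a _ => (FL.edges (FL.Lam n)).filter fun e => dE n e ∉ a) ?_ ?_ ?_ ?_ ?_
  · intro b _
    rw [Finset.mem_powerset]
    exact Pool.Agent.Helper13.OZ.dua_sub hn b
  · intro a _
    rw [Finset.mem_powerset]
    exact Finset.filter_subset _ _
  · intro b hb
    rw [Finset.mem_powerset] at hb
    ext e
    rw [Finset.mem_filter, Pool.Agent.Helper13.OZ.mem_dua]
    constructor
    · rintro ⟨h1, h2⟩
      by_contra h3
      exact h2 ⟨h1, h3⟩
    · intro h; exact ⟨hb h, fun h' => h'.2 h⟩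
  · intro a ha
    rw [Finset.mem_powerset] at ha
    ext f
    obtain ⟨e, rfl⟩ := Pool.Agent.Helper13.OZ.dE_surj (n := n) f
    rw [Pool.Agent.Helper13.OZ.mem_dua, Finset.mem_filter]
    constructor
    · rintro ⟨h1, h2⟩
      by_contra h3
      exact h2 ⟨h1, h3⟩
    · intro h
      exact ⟨(Pool.Agent.Helper13.OZ.dE_mem hn e).1 (ha h), fun h' => h'.2 h⟩
  · intro b _; rfl

/-- The weight of a primal configuration times the number of colourings is proportional to the weight of the dual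
configuration. -/
theorem main_id (k : ℕ) {β J : ℝ} (hβ : 0 < β) (hJ : 0 < J) {n : ℕ} (hn : 1 ≤ n) :
    ∃ C : ℝ, 0 < C ∧ ∀ b ⊆ FL.edges (FL.Lam n), Conn (dua n b) (0, 0) (Rn n) →
      (∏ e ∈ b, ve β J e) * (col k n b).card = C * sq.w ((k : ℝ) + 2)
        (dfc ((k + 2) / (Real.exp β - 1)) ((k + 2) / (Real.exp (β * J) - 1))) (dua n b) := by
  have hq : (0 : ℝ) < (k : ℝ) + 2 := by positivity
  set q : ℝ := (k : ℝ) + 2 with hqd
  have hv := ve_pos hβ hJ
  refine ⟨(∏ e ∈ FL.edges (FL.Lam n), ve β J e) * q ^ (FL.Lam n).card * q / q ^ (GP n).rk (EP n), ?_, ?_⟩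
  · exact div_pos (mul_pos (mul_pos (Finset.prod_pos fun e _ => hv e) (pow_pos hq _)) hq) (pow_pos hq _)
  · intro b hb hc
    have h1 : ((col k n b).card : ℝ) * q ^ (GP n).rk b = q ^ (FL.Lam n).card := by
      have := Pool.Agent.Helper13.OZ.col_card (k := k) b ((Pool.Agent.Helper13.OZ.sep_iff hn hb).2 hc)
      rw [hqd]
      exact_mod_cast this
    have h2 := Pool.Agent.Helper13.OZ.rk_sep hn hb hc
    have h3 : (∏ e ∈ dua n b, dfc (q / (Real.exp β - 1)) (q / (Real.exp (β * J) - 1)) e) =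
        q ^ (FL.edges (FL.Lam n) \ b).card / ∏ e ∈ FL.edges (FL.Lam n) \ b, ve β J e := by
      unfold Pool.Agent.Helper13.OZ.dua
      rw [Finset.prod_image (fun x _ y _ h => Pool.Agent.Helper13.OZ.dE_inj n h)]
      rw [Finset.prod_congr rfl fun e _ => dfc_dE k β J n e, Finset.prod_div_distrib, Finset.prod_const]
    have h4 : (∏ e ∈ FL.edges (FL.Lam n), ve β J e) =
        (∏ e ∈ FL.edges (FL.Lam n) \ b, ve β J e) * ∏ e ∈ b, ve β J e := (Finset.prod_sdiff hb).symm
    have h5 := Finset.card_sdiff_add_card_eq_card hb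
    have p1 : (∏ e ∈ FL.edges (FL.Lam n) \ b, ve β J e) ≠ 0 := (Finset.prod_pos fun e _ => hv e).ne'
    have p2 : ∀ m : ℕ, q ^ m ≠ 0 := fun m => (pow_pos hq m).ne'
    unfold Pool.Agent.Helper13.OZ.Gr.w
    rw [h3, h4, ← h1]
    have h6 : q ^ (GP n).rk b * q * q ^ (FL.edges (FL.Lam n) \ b).card =
        q ^ (GP n).rk (EP n) * q ^ sq.rk (dua n b) := by
      rw [← pow_succ, ← pow_add, ← pow_add]
      congr 1
      omega
    field_simp
    calc _ = (q ^ (GP n).rk (EP n) * q ^ sq.rk (dua n b)) * ((∏ e ∈ b, ve β J e) * ((col k n b).card : ℝ)) := by ring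
      _ = _ := by rw [← h6]; ring

/-- Lower bounds pass from the dual random-cluster model conditioned on the connection of the two ends of the
defect row to the Potts model with Dobrushin boundary condition. -/
theorem transfer (k : ℕ) {β J : ℝ} (hβ : 0 < β) (hJ : 0 < J) {n : ℕ} (hn : 1 ≤ n) {g : Conf k → ℝ}
    {h : Finset Pool.Helper49.FK.Edge → ℝ} (hgh : ∀ ω a, Compat n ω a → h a ≤ g ω) :
    ex (k + 2) (dfc ((k + 2) / (Real.exp β - 1)) ((k + 2) / (Real.exp (β * J) - 1))) (Dn n)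
        (fun a => if Conn a (0, 0) (Rn n) then h a else 0) ≤
      expec β J (FL.Lam n) dob g *
        pr (k + 2) (dfc ((k + 2) / (Real.exp β - 1)) ((k + 2) / (Real.exp (β * J) - 1))) (Dn n)
          (fun a => Conn a (0, 0) (Rn n)) := by
  have hq : (0 : ℝ) < (k : ℝ) + 2 := by positivity
  have hv := ve_pos hβ hJ
  obtain ⟨C, hC, hid⟩ := main_id k hβ hJ hn
  set ρ := dfc (((k : ℝ) + 2) / (Real.exp β - 1)) (((k : ℝ) + 2) / (Real.exp (β * J) - 1)) with hρ
  have hρ0 : ∀ e, 0 < ρ e := by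
    intro f
    obtain ⟨e, rfl⟩ := Pool.Agent.Helper13.OZ.dE_surj (n := n) f
    rw [hρ, dfc_dE]
    exact div_pos hq (hv e)
  unfold expec
  rw [Pool.Agent.Helper13.OZ.ex_eq hq, Pool.Agent.Helper13.OZ.pr_eq hq, sq.pr_eq]
  unfold Pool.Agent.Helper13.OZ.Gr.ex
  have hZ := sq.Z_pos ((k : ℝ) + 2) ρ hq (D := Pool.Helper49.FK.edges (Dn n)) fun e _ => (hρ0 e).le
  -- the two sums over the dual configurations
  set S1 : ℝ := ∑ a ∈ (Pool.Helper49.FK.edges (Dn n)).powerset, sq.w ((k : ℝ) + 2) ρ a *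
    ind (Conn a (0, 0) (Rn n)) with hS1
  set Sh : ℝ := ∑ a ∈ (Pool.Helper49.FK.edges (Dn n)).powerset, sq.w ((k : ℝ) + 2) ρ a *
    (if Conn a (0, 0) (Rn n) then h a else 0) with hSh
  have hden : ∑ σ : FL.Lam n → Fin (k + 2), weight β J (FL.Lam n) (glue (FL.Lam n) dob σ) = C * S1 := by
    have h1 := sum_eq (k := k) β J n (fun _ => 1)
    simp only [mul_one] at h1
    rw [h1, hS1, sum_dua hn, Finset.mul_sum]
    refine Finset.sum_congr rfl fun b hb => ?_
    rw [Finset.mem_powerset] at hb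
    rw [Finset.sum_const, nsmul_eq_mul, mul_one]
    by_cases hc : Conn (dua n b) (0, 0) (Rn n)
    · rw [ind_pos hc, mul_one]
      exact hid b hb hc
    · rw [ind_neg hc, mul_zero, mul_zero]
      have : (GP n).Cn b (vt n) (vb n) := by
        by_contra h2
        exact hc ((Pool.Agent.Helper13.OZ.sep_iff hn hb).1 h2)
      rw [Pool.Agent.Helper13.OZ.col_empty this, Finset.card_empty, Nat.cast_zero, mul_zero]
  have hnum : C * Sh ≤ ∑ σ : FL.Lam n → Fin (k + 2), weight β J (FL.Lam n) (glue (FL.Lam n) dob σ) *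
      g (glue (FL.Lam n) dob σ) := by
    rw [sum_eq, hSh, sum_dua hn, Finset.mul_sum]
    refine Finset.sum_le_sum fun b hb => ?_
    rw [Finset.mem_powerset] at hb
    by_cases hc : Conn (dua n b) (0, 0) (Rn n)
    · rw [if_pos hc, ← mul_assoc, ← hid b hb hc, mul_assoc]
      refine mul_le_mul_of_nonneg_left ?_ (Finset.prod_nonneg fun e _ => (hv e).le)
      rw [← nsmul_eq_mul, ← Finset.sum_const]
      refine Finset.sum_le_sum fun σ hσ => hgh _ _ ⟨?_, Pool.Agent.Helper13.OZ.dua_sub hn b, hc, ?_⟩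
      · intro x hx
        unfold glue
        rw [dif_neg hx]
      · intro e he hd
        have heE := (Pool.Agent.Helper13.OZ.dE_mem hn e).1 hd
        rw [Pool.Agent.Helper13.OZ.mem_dua]
        refine ⟨heE, fun heb => he ?_⟩
        rw [Pool.Agent.Helper13.OZ.glue_eq, Pool.Agent.Helper13.OZ.glue_eq]
        exact mem_col.1 hσ e heb
    · rw [if_neg hc, mul_zero, mul_zero]
      have : (GP n).Cn b (vt n) (vb n) := by
        by_contra h2
        exact hc ((Pool.Agent.Helper13.OZ.sep_iff hn hb).1 h2)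
      rw [Pool.Agent.Helper13.OZ.col_empty this, Finset.sum_empty, mul_zero]
  have hpos : 0 < ∑ σ : FL.Lam n → Fin (k + 2), weight β J (FL.Lam n) (glue (FL.Lam n) dob σ) :=
    Finset.sum_pos (fun σ _ => Real.exp_pos _) Finset.univ_nonempty
  rw [hden] at hpos
  have hS : 0 < S1 := by
    rcases (mul_pos_iff.1 hpos) with h1 | h1
    · exact h1.2
    · exact absurd hC (not_lt.2 h1.1.le)
  rw [hden, div_mul_div_comm, div_le_div_iff₀ hZ (mul_pos hpos hZ)]
  have h2 := mul_le_mul_of_nonneg_right hnum (mul_pos hS hZ).le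
  calc Sh * (C * S1 * sq.Z ((k : ℝ) + 2) ρ (Pool.Helper49.FK.edges (Dn n)))
      = C * Sh * (S1 * sq.Z ((k : ℝ) + 2) ρ (Pool.Helper49.FK.edges (Dn n))) := by ring
    _ ≤ _ := h2
    _ = _ := by ring

end Pool.Agent.Helper49.QP
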