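import Mathlib
import Pool.Agent.Helper49.QP.Law
import Pool.Agent.Helper49.QP.Transfer
import Pool.Agent.Helper49.OZ.FkLimit

/-!
Block AS-10: convergence for Lipschitz functionals, given exponential decay of the dual model.

Proof. `q = k + 2`, `ρ = q / (exp β - 1)`, `ρ' = q / (exp (β J) - 1) < ρ`. `P`, `κ` from `fk_limit`. Let `G` be Lipschitz (constant `L`) with
values in `[0, 1]`, `0 < ε`. `transfer` with `g ω = G (path n ω)` and
`h a = if Thin (clu a) (ε √n) then G (fpath n (clu a)) - L (ε √n + 1) / √n else 0`, valid by `path_close` (`g ≥ 0`): so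
`expec g ≥ ∫ (G (κ f) + G (-κ f)) / 2 dP - ε - L (ε + 1 / √n)` for large `n` (divide by the probability of the connection, which is
positive). Hence `liminf expec g ≥ ∫ ..`; the same for `1 - G`; so `expec g → ∫ ..`.
-/

open Filter MeasureTheory
open scoped Classical Topology

namespace Pool.Agent.Helper49.QP

open Pool.Agent.Helper49.FL (TI IsExc)

open Pool.Helper49.FK (Conn ex pr dfc clu) in
/-- the ends of the defect row are joined with positive probability -/
private theorem conn_pos92 {q : ℝ} {r : Pool.Helper49.FK.Edge → ℝ} (hq : 0 < q) (hr : ∀ e, 0 < r e)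
    (n : ℕ) : 0 < pr q r (Dn n) (fun a => Conn a (0, 0) (Rn n)) := by
  have h1 := Pool.Helper49.FK.pr_open_pos (D := Dn n) (F := Pool.Helper49.FK.edges (Dn n)) hq
    (fun e => (hr e).le) (Finset.Subset.refl _) (fun e _ => hr e)
  refine h1.trans_le (Pool.Helper49.FK.pr_mono hq (fun e => (hr e).le) fun a _ ha => ?_)
  have h2 : ∀ i : ℕ, (i : ℤ) ≤ 2 * (n : ℤ) + 1 → Conn a (0, 0) ((i : ℤ), 0) := by
    intro i
    induction i with
    | zero =>
      intro _
      exact Pool.Helper49.FK.Conn.refl _ _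
    | succ i ih =>
      intro hi
      push_cast at hi
      have h3 := ih (by omega)
      have he : ((((i : ℤ), (0 : ℤ)), true) : Pool.Helper49.FK.Edge) ∈ a := by
        refine ha (Pool.Helper49.FK.mem_edges.2 ⟨?_, ?_⟩)
        · unfold Dn
          rw [Finset.mem_product, Finset.mem_Icc, Finset.mem_Icc]
          simp only
          omega
        · unfold Dn Pool.Helper49.FK.tip
          rw [Finset.mem_product, Finset.mem_Icc, Finset.mem_Icc]
          simp only [if_true]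
          omega
      have h4 := Pool.Helper49.FK.conn_edge he
      have h5 : Pool.Helper49.FK.tip ((((i : ℤ), (0 : ℤ)), true) : Pool.Helper49.FK.Edge)
          = (((i + 1 : ℕ) : ℤ), 0) := by
        unfold Pool.Helper49.FK.tip
        simp
      rw [h5] at h4
      exact h3.trans h4
  have h3 := h2 (2 * n + 1) (by push_cast; omega)
  have h4 : ((((2 * n + 1 : ℕ) : ℤ), (0 : ℤ)) : ℤ × ℤ) = Rn n := by
    unfold Rn
    push_cast
    rfl
  rw [h4] at h3
  exact h3

/-- the limit functional -/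
private noncomputable def lim92 (P : Measure C(TI, ℝ)) (κ : ℝ) (G : C(TI, ℝ) → ℝ) : ℝ :=
  ∫ f, (G (κ • f) + G (-(κ • f))) / 2 ∂P

open Pool.Helper49.FK (Conn ex pr dfc clu) in
/-- the lower bound -/
private theorem lower92 (k : ℕ) {β : ℝ} (hβ : 0 < β) {J : ℝ} (hJ : 1 < J) (P : Measure C(TI, ℝ)) (κ : ℝ)
    {G : C(TI, ℝ) → ℝ} {L : NNReal} (hL : LipschitzWith L G) (hG : ∀ f, 0 ≤ G f ∧ G f ≤ 1)
    (hlim : ∀ ε : ℝ, 0 < ε → ∃ n₀ : ℕ, ∀ n, n₀ ≤ n →
      (lim92 P κ G - ε) *
          pr (k + 2) (dfc ((k + 2) / (Real.exp β - 1)) ((k + 2) / (Real.exp (β * J) - 1))) (Dn n)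
            (fun ω => Conn ω (0, 0) (Rn n)) ≤
        ex (k + 2) (dfc ((k + 2) / (Real.exp β - 1)) ((k + 2) / (Real.exp (β * J) - 1))) (Dn n)
          (fun ω => if Conn ω (0, 0) (Rn n) then
            (if OZ.Thin (clu (Dn n) ω (0, 0)) (ε * Real.sqrt n) then
              G (OZ.fpath n (clu (Dn n) ω (0, 0))) else 0) else 0))
    {δ : ℝ} (hδ : 0 < δ) : ∀ᶠ n : ℕ in atTop,
      lim92 P κ G - δ ≤ expec β J (FL.Lam n) (dob : Conf k) (fun ω => G (path n ω)) := by
  set q : ℝ := (k : ℝ) + 2 with hqdef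
  have hk0 : (0 : ℝ) ≤ k := Nat.cast_nonneg k
  have hq : 0 < q := by rw [hqdef]; linarith
  have hb1 : 1 < Real.exp β := Real.one_lt_exp_iff.2 hβ
  have hb2 : 1 < Real.exp (β * J) := Real.one_lt_exp_iff.2 (mul_pos hβ (by linarith))
  have hρ : 0 < q / (Real.exp β - 1) := div_pos hq (by linarith)
  have hρ' : 0 < q / (Real.exp (β * J) - 1) := div_pos hq (by linarith)
  set r := dfc (q / (Real.exp β - 1)) (q / (Real.exp (β * J) - 1)) with hr
  have hrpos : ∀ e, 0 < r e := by
    intro e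
    rw [hr]
    unfold dfc
    split_ifs
    · exact hρ'
    · exact hρ
  set L' : ℝ := (L : ℝ) with hL'
  have hL0 : 0 ≤ L' := L.2
  set ε : ℝ := δ / (2 * (1 + L')) with hε
  have hε0 : 0 < ε := div_pos hδ (by positivity)
  have hεδ : ε + L' * ε = δ / 2 := by
    rw [hε]
    field_simp
  obtain ⟨n₀, hn₀⟩ := hlim ε hε0
  have hsq : Tendsto (fun n : ℕ => L' / Real.sqrt n) atTop (𝓝 0) := by
    refine Tendsto.div_atTop tendsto_const_nhds ?_
    exact Real.tendsto_sqrt_atTop.comp tendsto_natCast_atTop_atTop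
  have hev : ∀ᶠ n : ℕ in atTop, L' / Real.sqrt n < δ / 2 := hsq.eventually_lt_const (by linarith)
  filter_upwards [hev, eventually_ge_atTop n₀, eventually_ge_atTop 1] with n h1 h2 h3
  have hsn : 0 < Real.sqrt n := Real.sqrt_pos.2 (by exact_mod_cast h3)
  set T : ℝ := ε * Real.sqrt n with hT
  set c : ℝ := L' * ((T + 1) / Real.sqrt n) with hc
  have hT0 : 0 < T := mul_pos hε0 hsn
  have hc0 : 0 ≤ c := mul_nonneg hL0 (div_nonneg (by linarith) hsn.le)
  have hc1 : c = L' * ε + L' / Real.sqrt n := by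
    rw [hc, hT]
    field_simp
  set h : Finset Pool.Helper49.FK.Edge → ℝ := fun a =>
    (if OZ.Thin (clu (Dn n) a (0, 0)) T then G (OZ.fpath n (clu (Dn n) a (0, 0))) else 0) - c with hh
  have htr := transfer k (β := β) (J := J) hβ (by linarith) h3
    (g := fun ω : Conf k => G (path n ω)) (h := h) (by
      intro ω a hωa
      simp only [hh]
      by_cases hthin : OZ.Thin (clu (Dn n) a (0, 0)) T
      · rw [if_pos hthin]
        have h4 : dist (path n ω) (OZ.fpath n (clu (Dn n) a (0, 0))) ≤ (T + 1) / Real.sqrt n := by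
          refine (ContinuousMap.dist_le (div_nonneg (by linarith) hsn.le)).2 fun s => ?_
          rw [Real.dist_eq]
          exact OZ.path_close h3 hωa hthin s
        have h5 := hL.dist_le_mul (path n ω) (OZ.fpath n (clu (Dn n) a (0, 0)))
        have h6 : dist (G (path n ω)) (G (OZ.fpath n (clu (Dn n) a (0, 0)))) ≤ c :=
          h5.trans (mul_le_mul_of_nonneg_left h4 hL0)
        rw [Real.dist_eq, abs_le] at h6
        linarith
      · rw [if_neg hthin]
        linarith [(hG (path n ω)).1])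
  have hlow := hn₀ n h2
  have hsplit : ex q r (Dn n) (fun a => if Conn a (0, 0) (Rn n) then h a else 0) =
      ex q r (Dn n) (fun ω => if Conn ω (0, 0) (Rn n) then
            (if OZ.Thin (clu (Dn n) ω (0, 0)) T then
              G (OZ.fpath n (clu (Dn n) ω (0, 0))) else 0) else 0) -
        c * pr q r (Dn n) (fun a => Conn a (0, 0) (Rn n)) := by
    have e1 : pr q r (Dn n) (fun a => Conn a (0, 0) (Rn n)) =
        ex q r (Dn n) (fun a => if Conn a (0, 0) (Rn n) then 1 else 0) := by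
      unfold pr
      rfl
    rw [e1, sub_eq_add_neg, ← neg_mul, ← Pool.Helper49.FK.ex_const_mul, ← Pool.Helper49.FK.ex_add]
    refine Pool.Helper49.FK.ex_congr fun a _ => ?_
    by_cases hcn : Conn a (0, 0) (Rn n)
    · simp only [if_pos hcn, hh]
      ring
    · simp only [if_neg hcn]
      ring
  have hpr := conn_pos92 hq hrpos n
  rw [hsplit] at htr
  have h7 : (lim92 P κ G - ε - c) * pr q r (Dn n) (fun a => Conn a (0, 0) (Rn n)) ≤
      expec β J (FL.Lam n) (dob : Conf k) (fun ω => G (path n ω)) *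
        pr q r (Dn n) (fun a => Conn a (0, 0) (Rn n)) := by
    linarith
  have h8 := le_of_mul_le_mul_right h7 hpr
  linarith

/-- Convergence for Lipschitz functionals. -/
theorem lip_limit (k : ℕ) {β : ℝ} (hβ : 0 < β)
    (hE : Pool.Helper49.FK.ExpW (k + 2) ((k + 2) / (Real.exp β - 1))) :
    ∃ (P : Measure C(TI, ℝ)) (κ : ℝ), IsExc P ∧ 0 < κ ∧ ∀ J : ℝ, 1 < J →
      ∀ G : C(TI, ℝ) → ℝ, (∃ L, LipschitzWith L G) → (∀ f, 0 ≤ G f ∧ G f ≤ 1) →
        Tendsto (fun n : ℕ => expec β J (FL.Lam n) (dob : Conf k) (fun ω => G (path n ω))) atTop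
          (𝓝 (∫ f, (G (κ • f) + G (-(κ • f))) / 2 ∂P)) := by
  have hk0 : (0 : ℝ) ≤ k := Nat.cast_nonneg k
  have hq : (1 : ℝ) ≤ (k : ℝ) + 2 := by linarith
  have hb1 : 1 < Real.exp β := Real.one_lt_exp_iff.2 hβ
  have hρ : 0 < ((k : ℝ) + 2) / (Real.exp β - 1) := div_pos (by linarith) (by linarith)
  obtain ⟨P, κ, hP, hκ, hfk⟩ := OZ.fk_limit hq hρ hE
  refine ⟨P, κ, hP, hκ, fun J hJ G hL hG => ?_⟩
  obtain ⟨L, hL⟩ := hL
  have hb2 : Real.exp β < Real.exp (β * J) := Real.exp_lt_exp.2 (by nlinarith)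
  have hρ' : 0 < ((k : ℝ) + 2) / (Real.exp (β * J) - 1) := div_pos (by linarith) (by linarith)
  have hρρ : ((k : ℝ) + 2) / (Real.exp (β * J) - 1) < ((k : ℝ) + 2) / (Real.exp β - 1) :=
    div_lt_div_of_pos_left (by linarith) (by linarith) (by linarith)
  have : IsProbabilityMeasure P := hP.1
  have hlow1 : ∀ δ : ℝ, 0 < δ → ∀ᶠ n : ℕ in atTop,
      lim92 P κ G - δ ≤ expec β J (FL.Lam n) (dob : Conf k) (fun ω => G (path n ω)) := fun δ hδ =>
    lower92 k hβ hJ P κ hL hG (fun ε hε => hfk _ hρ' hρρ G ⟨L, hL⟩ hG ε hε) hδ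
  have hL2 : LipschitzWith L (fun f => 1 - G f) := by
    refine LipschitzWith.of_dist_le_mul fun f g => ?_
    have h1 := hL.dist_le_mul f g
    rw [Real.dist_eq] at h1 ⊢
    have h2 : 1 - G f - (1 - G g) = -(G f - G g) := by ring
    rw [h2, abs_neg]
    exact h1
  have hG2 : ∀ f, 0 ≤ 1 - G f ∧ 1 - G f ≤ 1 := fun f => ⟨by linarith [(hG f).2], by linarith [(hG f).1]⟩
  have hlow2 : ∀ δ : ℝ, 0 < δ → ∀ᶠ n : ℕ in atTop,
      lim92 P κ (fun f => 1 - G f) - δ ≤
        expec β J (FL.Lam n) (dob : Conf k) (fun ω => 1 - G (path n ω)) := fun δ hδ =>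
    lower92 k hβ hJ P κ hL2 hG2 (fun ε hε => hfk _ hρ' hρρ (fun f => 1 - G f) ⟨L, hL2⟩ hG2 ε hε) hδ
  have hint : Integrable (fun f => (G (κ • f) + G (-(κ • f))) / 2) P := by
    have hc : Continuous fun f : C(TI, ℝ) => (G (κ • f) + G (-(κ • f))) / 2 := by
      have h1 := hL.continuous
      fun_prop
    refine Integrable.of_bound hc.aestronglyMeasurable 1 (Filter.Eventually.of_forall fun f => ?_)
    rw [Real.norm_eq_abs, abs_le]
    have h1 := hG (κ • f)
    have h2 := hG (-(κ • f))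
    constructor <;> linarith
  have hlim2 : lim92 P κ (fun f => 1 - G f) = 1 - lim92 P κ G := by
    unfold lim92
    have h1 : ∀ f : C(TI, ℝ), (1 - G (κ • f) + (1 - G (-(κ • f)))) / 2 =
        1 - (G (κ • f) + G (-(κ • f))) / 2 := fun f => by ring
    simp only [h1]
    rw [integral_sub (integrable_const _) hint]
    simp
  have hexp2 : ∀ n : ℕ, expec β J (FL.Lam n) (dob : Conf k) (fun ω => 1 - G (path n ω)) =
      1 - expec β J (FL.Lam n) (dob : Conf k) (fun ω => G (path n ω)) := by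
    intro n
    rw [expec_sub, expec_const]
  rw [Metric.tendsto_atTop']
  intro δ hδ
  have h1 := (hlow1 (δ / 2) (by linarith)).and (hlow2 (δ / 2) (by linarith))
  obtain ⟨N, hN⟩ := eventually_atTop.1 h1
  refine ⟨N, fun n hn => ?_⟩
  obtain ⟨h2, h3⟩ := hN n hn.le
  rw [hlim2, hexp2] at h3
  have h4 : ∫ f, (G (κ • f) + G (-(κ • f))) / 2 ∂P = lim92 P κ G := rfl
  rw [h4, Real.dist_eq, abs_lt]
  constructor <;> linarith

end Pool.Agent.Helper49.QP
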