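import Mathlib
import Pool.Agent.Helper49.FL.Def

/-!
Block AS-2: weak convergence on `C([-1, 1])` from Lipschitz functions; uniform modulus of continuity.

* `weak_of_lip`: `MeasureTheory.tendsto_iff_forall_lipschitz_integral_tendsto` (Mathlib, Portmanteau); a bounded
  Lipschitz function is `a + b G` with `0 ≤ G ≤ 1` Lipschitz.
* `mix`: the measure `(P.map (κ • ·) + P.map (-(κ • ·))) / 2`.
* `osc_of_weak`: for `d > 0` let `w d f = sup {|f s - f s'| : |s - s'| ≤ d}`, a 2-Lipschitz function of `f`; for each `f`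
  `w d f → 0` as `d → 0` (uniform continuity); so `∫ min 1 (w d f / ε) dμ ≤ t / 2` for some `d > 0` (dominated convergence,
  `d = 1 / (j + 1)`) and the indicator of `{∃ s s', |s - s'| ≤ d ∧ ε < |f s - f s'|}` is at most `min 1 (w d f / ε)`.
-/

open Filter MeasureTheory
open scoped Topology

namespace Pool.Agent.Helper49.QP

open Pool.Agent.Helper49.FL (TI)

private noncomputable def toPM53 (ν : Measure C(TI, ℝ)) [h : IsProbabilityMeasure ν] :
    ProbabilityMeasure C(TI, ℝ) := ⟨ν, h⟩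

private theorem tendsto_of_int53 {ν : ℕ → Measure C(TI, ℝ)} [∀ n, IsProbabilityMeasure (ν n)]
    {μ : Measure C(TI, ℝ)} [IsProbabilityMeasure μ]
    (h : ∀ G : C(TI, ℝ) → ℝ, Continuous G → (∃ B : ℝ, ∀ f, |G f| ≤ B) →
      Tendsto (fun n => ∫ f, G f ∂(ν n)) atTop (𝓝 (∫ f, G f ∂μ))) :
    Tendsto (fun n => toPM53 (ν n)) atTop (𝓝 (toPM53 μ)) := by
  rw [ProbabilityMeasure.tendsto_iff_forall_integral_tendsto]
  intro G
  exact h G G.continuous ⟨‖G‖, fun f => by
    rw [← Real.norm_eq_abs]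
    exact G.norm_coe_le_norm f⟩

private theorem int_aff53 {ν : Measure C(TI, ℝ)} [IsProbabilityMeasure ν] {G : C(TI, ℝ) → ℝ}
    (hG : Continuous G) (hb : ∀ f, 0 ≤ G f ∧ G f ≤ 1) (a b : ℝ) :
    ∫ f, (a + b * G f) ∂ν = a + b * ∫ f, G f ∂ν := by
  have hi : Integrable G ν := by
    refine Integrable.of_bound hG.aestronglyMeasurable 1 (Eventually.of_forall fun f => ?_)
    rw [Real.norm_eq_abs, abs_of_nonneg (hb f).1]
    exact (hb f).2
  rw [integral_add (integrable_const _) (hi.const_mul b), integral_const_mul, integral_const]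
  simp

theorem weak_of_lip {ν : ℕ → Measure C(TI, ℝ)} [∀ n, IsProbabilityMeasure (ν n)]
    {μ : Measure C(TI, ℝ)} [IsProbabilityMeasure μ]
    (h : ∀ G : C(TI, ℝ) → ℝ, (∃ L, LipschitzWith L G) → (∀ f, 0 ≤ G f ∧ G f ≤ 1) →
      Tendsto (fun n => ∫ f, G f ∂(ν n)) atTop (𝓝 (∫ f, G f ∂μ))) :
    ∀ G : C(TI, ℝ) → ℝ, Continuous G → (∃ B : ℝ, ∀ f, |G f| ≤ B) →
      Tendsto (fun n => ∫ f, G f ∂(ν n)) atTop (𝓝 (∫ f, G f ∂μ)) := by
  have hlim : Tendsto (fun n => toPM53 (ν n)) atTop (𝓝 (toPM53 μ)) := by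
    rw [tendsto_iff_forall_lipschitz_integral_tendsto]
    rintro F ⟨C, hC⟩ ⟨L, hL⟩
    -- `F = a + b G`
    obtain ⟨D, hD, hCD⟩ : ∃ D : ℝ, 0 < D ∧ C ≤ D := ⟨|C| + 1, by positivity, by
      linarith [le_abs_self C]⟩
    obtain ⟨a, ha⟩ : ∃ a, a = F 0 - D := ⟨_, rfl⟩
    obtain ⟨G, hG⟩ : ∃ G : C(TI, ℝ) → ℝ, G = fun f => (2 * D)⁻¹ * (F f - a) := ⟨_, rfl⟩
    have hFG : ∀ f, F f = a + (2 * D) * G f := by
      intro f
      rw [hG]
      field_simp
      ring
    have hGL : LipschitzWith (Real.toNNReal (2 * D)⁻¹ * L) G := by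
      refine LipschitzWith.of_dist_le_mul fun f g => ?_
      have h1 := hL.dist_le_mul f g
      rw [Real.dist_eq] at h1 ⊢
      rw [hG]
      have h2 : (2 * D)⁻¹ * (F f - a) - (2 * D)⁻¹ * (F g - a) = (2 * D)⁻¹ * (F f - F g) := by ring
      have h3 : (0 : ℝ) ≤ (2 * D)⁻¹ := by positivity
      simp only
      rw [h2, abs_mul, abs_of_nonneg h3, NNReal.coe_mul, Real.coe_toNNReal _ h3, mul_assoc]
      exact mul_le_mul_of_nonneg_left h1 h3
    have hGb : ∀ f, 0 ≤ G f ∧ G f ≤ 1 := by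
      intro f
      have h1 := (hC f 0).trans hCD
      rw [Real.dist_eq] at h1
      have h2 := abs_le.1 h1
      rw [hG]
      simp only
      rw [ha]
      constructor
      · exact mul_nonneg (by positivity) (by linarith)
      · rw [inv_mul_le_iff₀ (by positivity)]
        linarith
    have h1 := h G ⟨_, hGL⟩ hGb
    have h2 := (h1.const_mul (2 * D)).const_add a
    have h3 : ∀ (κ : Measure C(TI, ℝ)) [IsProbabilityMeasure κ],
        ∫ f, F f ∂κ = a + 2 * D * ∫ f, G f ∂κ := by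
      intro κ _
      rw [← int_aff53 hGL.continuous hGb]
      exact integral_congr_ae (Eventually.of_forall fun f => hFG f)
    change Tendsto (fun n => ∫ f, F f ∂(ν n)) atTop (𝓝 (∫ f, F f ∂μ))
    rw [h3 μ]
    simp_rw [fun n => h3 (ν n)]
    exact h2
  intro G hG ⟨B, hB⟩
  rw [ProbabilityMeasure.tendsto_iff_forall_integral_tendsto] at hlim
  exact hlim (BoundedContinuousFunction.ofNormedAddCommGroup G hG B hB)

/-- The symmetric mixture. -/
theorem mix (P : Measure C(TI, ℝ)) [IsProbabilityMeasure P] (κ : ℝ) :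
    ∃ μ : Measure C(TI, ℝ), IsProbabilityMeasure μ ∧
      ∀ G : C(TI, ℝ) → ℝ, Continuous G → (∃ B : ℝ, ∀ f, |G f| ≤ B) →
        ∫ f, G f ∂μ = ∫ f, (G (κ • f) + G (-(κ • f))) / 2 ∂P := by
  have hc1 : Continuous fun f : C(TI, ℝ) => κ • f := continuous_const_smul κ
  have hc2 : Continuous fun f : C(TI, ℝ) => -(κ • f) := hc1.neg
  obtain ⟨P₁, hP₁⟩ : ∃ P₁, P₁ = P.map fun f : C(TI, ℝ) => κ • f := ⟨_, rfl⟩
  obtain ⟨P₂, hP₂⟩ : ∃ P₂, P₂ = P.map fun f : C(TI, ℝ) => -(κ • f) := ⟨_, rfl⟩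
  have i1 : IsProbabilityMeasure P₁ := by
    rw [hP₁]; exact Measure.isProbabilityMeasure_map hc1.aemeasurable
  have i2 : IsProbabilityMeasure P₂ := by
    rw [hP₂]; exact Measure.isProbabilityMeasure_map hc2.aemeasurable
  refine ⟨(2⁻¹ : ENNReal) • (P₁ + P₂), ⟨?_⟩, fun G hG ⟨B, hB⟩ => ?_⟩
  · rw [Measure.smul_apply, Measure.add_apply, measure_univ, measure_univ, smul_eq_mul,
      one_add_one_eq_two]
    exact ENNReal.inv_mul_cancel (by norm_num) (by norm_num)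
  · have hi : ∀ (Q : Measure C(TI, ℝ)) [IsProbabilityMeasure Q], Integrable G Q := by
      intro Q _
      exact Integrable.of_bound hG.aestronglyMeasurable B (Eventually.of_forall hB)
    have hi1 : Integrable (fun f => G (κ • f)) P :=
      Integrable.of_bound (hG.comp hc1).aestronglyMeasurable B (Eventually.of_forall fun f => hB _)
    have hi2 : Integrable (fun f => G (-(κ • f))) P :=
      Integrable.of_bound (hG.comp hc2).aestronglyMeasurable B (Eventually.of_forall fun f => hB _)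
    rw [integral_smul_measure, integral_add_measure (hi P₁) (hi P₂), hP₁, hP₂,
      integral_map hc1.aemeasurable hG.aestronglyMeasurable,
      integral_map hc2.aemeasurable hG.aestronglyMeasurable, ← integral_add hi1 hi2,
      integral_div, smul_eq_mul]
    have h2 : (2⁻¹ : ENNReal).toReal = 2⁻¹ := by norm_num
    rw [h2]
    ring

private def oscSet53 (d ε : ℝ) : Set C(TI, ℝ) :=
  {f | ∃ s s' : TI, |(s : ℝ) - s'| ≤ d ∧ ε ≤ |f s - f s'|}

private theorem oscSet_closed53 (d ε : ℝ) : IsClosed (oscSet53 d ε) := by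
  have h1 : IsClosed {p : (TI × TI) × C(TI, ℝ) |
      |(p.1.1 : ℝ) - p.1.2| ≤ d ∧ ε ≤ |p.2 p.1.1 - p.2 p.1.2|} := by
    have h1 : IsClosed {p : (TI × TI) × C(TI, ℝ) | |(p.1.1 : ℝ) - p.1.2| ≤ d} :=
      isClosed_le (by fun_prop) continuous_const
    have h2 : IsClosed {p : (TI × TI) × C(TI, ℝ) | ε ≤ |p.2 p.1.1 - p.2 p.1.2|} :=
      isClosed_le continuous_const (by fun_prop)
    exact h1.inter h2
  have h2 := isClosedMap_snd_of_compactSpace (X := TI × TI) (Y := C(TI, ℝ)) _ h1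
  convert h2 using 1
  ext f
  constructor
  · rintro ⟨s, s', h⟩
    exact ⟨((s, s'), f), h, rfl⟩
  · rintro ⟨⟨⟨s, s'⟩, g⟩, h, rfl⟩
    exact ⟨s, s', h⟩

theorem osc_of_weak {ν : ℕ → Measure C(TI, ℝ)} [∀ n, IsProbabilityMeasure (ν n)]
    {μ : Measure C(TI, ℝ)} [IsProbabilityMeasure μ]
    (h : ∀ G : C(TI, ℝ) → ℝ, Continuous G → (∃ B : ℝ, ∀ f, |G f| ≤ B) →
      Tendsto (fun n => ∫ f, G f ∂(ν n)) atTop (𝓝 (∫ f, G f ∂μ))) {ε t : ℝ} (hε : 0 < ε) (ht : 0 < t) :
    ∃ (d : ℝ) (n₀ : ℕ), 0 < d ∧ ∀ n, n₀ ≤ n →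
      (ν n).real {f | ∃ s s' : TI, |(s : ℝ) - s'| ≤ d ∧ ε < |f s - f s'|} ≤ t := by
  have hlim := tendsto_of_int53 h
  have hanti : Antitone fun j : ℕ => oscSet53 (1 / ((j : ℝ) + 1)) ε := by
    intro i j hij f
    rintro ⟨s, s', h1, h2⟩
    refine ⟨s, s', h1.trans ?_, h2⟩
    have h3 : (i : ℝ) ≤ j := Nat.cast_le.2 hij
    exact one_div_le_one_div_of_le (by positivity) (by linarith)
  have hempty : (⋂ j : ℕ, oscSet53 (1 / ((j : ℝ) + 1)) ε) = ∅ := by
    rw [Set.eq_empty_iff_forall_notMem]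
    intro f hf
    have huc : UniformContinuous f := CompactSpace.uniformContinuous_of_continuous f.continuous
    rw [Metric.uniformContinuous_iff] at huc
    obtain ⟨δ, hδ, h1⟩ := huc ε hε
    obtain ⟨j, hj⟩ := exists_nat_one_div_lt hδ
    obtain ⟨s, s', h2, h3⟩ := Set.mem_iInter.1 hf j
    have h4 : dist s s' < δ := by
      rw [Subtype.dist_eq, Real.dist_eq]
      exact h2.trans_lt hj
    have h5 := h1 h4
    rw [Real.dist_eq] at h5
    linarith
  have htend : Tendsto (fun j : ℕ => μ (oscSet53 (1 / ((j : ℝ) + 1)) ε)) atTop (𝓝 0) := by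
    have h1 := tendsto_measure_iInter_atTop (μ := μ)
      (fun j : ℕ => (oscSet_closed53 (1 / ((j : ℝ) + 1)) ε).measurableSet.nullMeasurableSet) hanti
      ⟨0, measure_ne_top _ _⟩
    rw [hempty, measure_empty] at h1
    exact h1
  have ht' : (0 : ENNReal) < ENNReal.ofReal t := ENNReal.ofReal_pos.2 ht
  obtain ⟨j, hj⟩ := (htend.eventually_lt_const ht').exists
  have hls := ProbabilityMeasure.limsup_measure_closed_le_of_tendsto hlim
    (oscSet_closed53 (1 / ((j : ℝ) + 1)) ε)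
  have hev := eventually_lt_of_limsup_lt (hls.trans_lt hj)
  obtain ⟨n₀, hn₀⟩ := eventually_atTop.1 hev
  refine ⟨1 / ((j : ℝ) + 1), n₀, by positivity, fun n hn => ?_⟩
  have h1 := hn₀ n hn
  have h2 : (ν n) {f | ∃ s s' : TI, |(s : ℝ) - s'| ≤ 1 / ((j : ℝ) + 1) ∧ ε < |f s - f s'|} ≤
      ENNReal.ofReal t := by
    refine (measure_mono ?_).trans h1.le
    rintro f ⟨s, s', h3, h4⟩
    exact ⟨s, s', h3, h4.le⟩
  rw [Measure.real]
  exact ENNReal.toReal_le_of_le_ofReal ht.le h2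

end Pool.Agent.Helper49.QP
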