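import Mathlib
import Pool.Agent.Helper49.QP.Lip
import Pool.Agent.Helper49.QP.Weak
import Pool.Agent.Helper49.QP.Geo
import Pool.Agent.Helper49.FL.Exc

/-!
Block AS-11: the functional limit theorem for all numbers of colours, given exponential decay of the dual model.

Proof. `lip_limit`, `weak_of_lip` with `ν n = lawP k β J n`, `mix`, `lawP_int`; `exc_unique` (FL/Exc). The last part: as in
`FL/Main.lean`, from `osc_of_weak`, `gp_near`, `lawP_real` (the set is open, or use `osc_of_weak` through `lawP_real` for the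
measurable set) and `path_node`.
-/

open Filter MeasureTheory
open scoped Classical Topology

namespace Pool.Agent.Helper49.QP

open Pool.Agent.Helper49.FL (TI IsExc)

theorem path_node {k n : ℕ} (hn : 1 ≤ n) (ω : Conf k) {x : ℤ} (hx : |x| ≤ n) (s : TI)
    (hs : (n : ℝ) * (s : ℝ) = x) : path n ω s = Gp ω x / Real.sqrt n := by
  have h0 : path n ω s =
      ∑ y ∈ Finset.Icc (-(n : ℤ)) n, Gp ω y / Real.sqrt n * max 0 (1 - |(n : ℝ) * (s : ℝ) - y|) := rfl
  rw [h0, Finset.sum_eq_single x]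
  · rw [hs, sub_self, abs_zero, sub_zero, max_eq_right zero_le_one, mul_one]
  · intro y _ hy
    have h1 : 1 ≤ |x - y| := Int.one_le_abs (sub_ne_zero.2 (Ne.symm hy))
    have h2 : (1 : ℝ) ≤ |(n : ℝ) * (s : ℝ) - (y : ℝ)| := by
      rw [hs]
      exact_mod_cast h1
    rw [max_eq_left (by linarith), mul_zero]
  · intro h
    exact absurd (Finset.mem_Icc.2 (abs_le.1 hx)) h

/-- The set of the paths with a large oscillation at small distance is open. -/
private theorem osc_open86 (d ε : ℝ) :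
    IsOpen {f : C(TI, ℝ) | ∃ s s' : TI, |(s : ℝ) - s'| ≤ d ∧ ε < |f s - f s'|} := by
  have h : {f : C(TI, ℝ) | ∃ s s' : TI, |(s : ℝ) - s'| ≤ d ∧ ε < |f s - f s'|} =
      ⋃ (s : TI) (s' : TI) (_ : |(s : ℝ) - s'| ≤ d), {f : C(TI, ℝ) | ε < |f s - f s'|} := by
    ext f
    rw [Set.mem_iUnion]
    refine exists_congr fun s => ?_
    rw [Set.mem_iUnion]
    refine exists_congr fun s' => ?_
    rw [Set.mem_iUnion]
    exact exists_prop.symm
  rw [h]
  refine isOpen_iUnion fun s => isOpen_iUnion fun s' => isOpen_iUnion fun _ => ?_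
  exact isOpen_lt continuous_const (by fun_prop)

/-- Closeness of the interpolation to the height of the interface. -/
private theorem close86 {k n : ℕ} {d ε : ℝ} (hn : 1 ≤ n) (hnd : 1 < (n : ℝ) * d) {ω : Conf k}
    (hω : ∀ x, x ∉ FL.Lam n → ω x = dob x)
    (h : ∃ s : TI, ε < |path n ω s - Gp ω (n * (s : ℝ)) / Real.sqrt n|) :
    ∃ s s' : TI, |(s : ℝ) - s'| ≤ d ∧ ε < |path n ω s - path n ω s'| := by
  obtain ⟨s, hlt⟩ := h
  have hnr : (1 : ℝ) ≤ n := by exact_mod_cast hn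
  have hnp : (0 : ℝ) < n := by linarith
  have hns : |(n : ℝ) * (s : ℝ)| ≤ n := by
    rw [abs_mul, abs_of_pos hnp]
    have h6 : |(s : ℝ)| ≤ 1 := abs_le.2 s.2
    nlinarith
  obtain ⟨x, hx, hsx, hgx⟩ := gp_near hn hω hns
  rw [hgx] at hlt
  have hxr : |(x : ℝ)| ≤ n := by exact_mod_cast hx
  obtain ⟨hx1, hx2⟩ := abs_le.1 hxr
  have hs' : (-1 : ℝ) ≤ x / n ∧ (x : ℝ) / n ≤ 1 := by
    constructor
    · rw [le_div_iff₀ hnp]; linarith
    · rw [div_le_iff₀ hnp]; linarith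
  refine ⟨s, ⟨x / n, hs'⟩, ?_, ?_⟩
  · show |(s : ℝ) - (x : ℝ) / n| ≤ d
    have h5 : (s : ℝ) - (x : ℝ) / n = ((n : ℝ) * s - x) / n := by field_simp
    rw [h5, abs_div, abs_of_pos hnp, div_le_iff₀ hnp]
    nlinarith
  · rw [path_node hn ω hx ⟨x / n, hs'⟩ (by show (n : ℝ) * ((x : ℝ) / n) = x; field_simp)]
    exact hlt

theorem main_of_exp (k : ℕ) {β : ℝ} (hβ : 0 < β)
    (hE : Pool.Helper49.FK.ExpW (k + 2) ((k + 2) / (Real.exp β - 1))) :
    ∃ (P : Measure C(TI, ℝ)) (κ : ℝ), IsExc P ∧ (∀ Q : Measure C(TI, ℝ), IsExc Q → Q = P) ∧ 0 < κ ∧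
      ∀ J : ℝ, 1 < J →
        (∀ G : C(TI, ℝ) → ℝ, Continuous G → (∃ B : ℝ, ∀ f, |G f| ≤ B) →
          Tendsto (fun n : ℕ => expec β J (FL.Lam n) (dob : Conf k) (fun ω => G (path n ω))) atTop
            (𝓝 (∫ f, (G (κ • f) + G (-(κ • f))) / 2 ∂P))) ∧
        ∀ ε : ℝ, 0 < ε → Tendsto (fun n : ℕ => expec β J (FL.Lam n) (dob : Conf k)
          (fun ω => if ∃ s : TI, ε < |path n ω s - Gp ω (n * (s : ℝ)) / Real.sqrt n| then 1 else 0))
            atTop (𝓝 0) := by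
  obtain ⟨P, κ, hP, hκ, hL⟩ := lip_limit k hβ hE
  have hPp : IsProbabilityMeasure P := hP.1
  obtain ⟨μ, hμ, hmix⟩ := mix P κ
  refine ⟨P, κ, hP, fun Q hQ => FL.exc_unique hQ hP, hκ, fun J hJ => ?_⟩
  have hW : ∀ G : C(TI, ℝ) → ℝ, Continuous G → (∃ B : ℝ, ∀ f, |G f| ≤ B) →
      Tendsto (fun n => ∫ f, G f ∂(lawP k β J n)) atTop (𝓝 (∫ f, G f ∂μ)) := by
    refine weak_of_lip (ν := fun n => lawP k β J n) fun G hG hb => ?_
    obtain ⟨L, hGL⟩ := hG
    have hc : Continuous G := hGL.continuous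
    have h1 := hL J hJ G ⟨L, hGL⟩ hb
    rw [hmix G hc ⟨1, fun f => abs_le.2 ⟨by linarith [(hb f).1], (hb f).2⟩⟩]
    refine h1.congr fun n => ?_
    rw [lawP_int β J n hc]
  refine ⟨fun G hG hb => ?_, fun ε hε => ?_⟩
  · have h1 := hW G hG hb
    rw [hmix G hG hb] at h1
    refine h1.congr fun n => ?_
    rw [lawP_int β J n hG]
  · rw [Metric.tendsto_atTop]
    intro t ht'
    obtain ⟨d, n₀, hd, h3⟩ := osc_of_weak (ν := fun n => lawP k β J n) hW hε (half_pos ht')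
    obtain ⟨n₁, hn₁⟩ := exists_nat_gt (1 / d)
    refine ⟨max (max n₀ n₁) 1, fun n hn => ?_⟩
    have hn0 : n₀ ≤ n := le_trans (le_trans (le_max_left _ _) (le_max_left _ _)) hn
    have hn1 : n₁ ≤ n := le_trans (le_trans (le_max_right _ _) (le_max_left _ _)) hn
    have hn2 : 1 ≤ n := le_trans (le_max_right _ _) hn
    have hdn : 1 / d < n := hn₁.trans_le (by exact_mod_cast hn1)
    have h4 : 1 < (n : ℝ) * d := by
      rw [div_lt_iff₀ hd] at hdn
      exact hdn
    have hsub : expec β J (FL.Lam n) (dob : Conf k)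
        (fun ω => if ∃ s : TI, ε < |path n ω s - Gp ω (n * (s : ℝ)) / Real.sqrt n| then 1 else 0) ≤
        (lawP k β J n).real {f | ∃ s s' : TI, |(s : ℝ) - s'| ≤ d ∧ ε < |f s - f s'|} := by
      rw [lawP_real β J n (osc_open86 d ε).measurableSet]
      refine expec_mono fun ω hω => ?_
      by_cases hE : ∃ s : TI, ε < |path n ω s - Gp ω (n * (s : ℝ)) / Real.sqrt n|
      · have hm : path n ω ∈ {f : C(TI, ℝ) | ∃ s s' : TI, |(s : ℝ) - s'| ≤ d ∧ ε < |f s - f s'|} :=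
          close86 hn2 h4 hω hE
        rw [if_pos hE, if_pos hm]
      · rw [if_neg hE]
        split_ifs <;> norm_num
    have h5 := hsub.trans (h3 n hn0)
    have h6 : expec β J (FL.Lam n) (dob : Conf k) (fun _ => 0) ≤ expec β J (FL.Lam n) (dob : Conf k)
        (fun ω => if ∃ s : TI, ε < |path n ω s - Gp ω (n * (s : ℝ)) / Real.sqrt n| then 1 else 0) := by
      refine expec_mono fun ω _ => ?_
      split_ifs <;> norm_num
    rw [expec_const] at h6
    rw [Real.dist_eq, sub_zero, abs_of_nonneg h6]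
    linarith

end Pool.Agent.Helper49.QP
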